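import Mathlib

/-!
Graphs without short cycles, in terms of reduced (non-backtracking) walks: adding a far edge keeps
the girth large, and a graph of large girth is sparse.
-/

namespace Pool.Agent.Helper81.Flow

variable {V : Type*}

/-- `c 0, ..., c ℓ` is a reduced walk. -/
def RW (adj : V → V → Prop) (ℓ : ℕ) (c : ℕ → V) : Prop :=
  (∀ i, i < ℓ → adj (c i) (c (i + 1))) ∧ ∀ i, i + 2 ≤ ℓ → c i ≠ c (i + 2)

/-- No reduced closed walk of length between `1` and `m`. -/
def GirthGt (adj : V → V → Prop) (m : ℕ) : Prop :=
  ∀ ℓ (c : ℕ → V), 1 ≤ ℓ → ℓ ≤ m → RW adj ℓ c → c 0 ≠ c ℓ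

/-- There is a walk of length `ℓ` from `x` to `y`. -/
def Reach (adj : V → V → Prop) (ℓ : ℕ) (x y : V) : Prop :=
  ∃ c : ℕ → V, c 0 = x ∧ c ℓ = y ∧ ∀ i, i < ℓ → adj (c i) (c (i + 1))

theorem Reach.symm {adj : V → V → Prop} (hs : ∀ x y, adj x y → adj y x) {ℓ : ℕ} {x y : V}
    (h : Reach adj ℓ x y) : Reach adj ℓ y x := by
  obtain ⟨c, h0, h1, h2⟩ := h
  refine ⟨fun i => c (ℓ - i), by simpa using h1, by simpa using h0, fun i hi => ?_⟩
  have h3 := h2 (ℓ - (i + 1)) (by omega)
  have h4 : ℓ - (i + 1) + 1 = ℓ - i := by omega
  rw [h4] at h3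
  exact hs _ _ h3

theorem girth_add {adj : V → V → Prop} (hs : ∀ x y, adj x y → adj y x) {m : ℕ}
    (h : GirthGt adj m) {u v : V} (huv : u ≠ v) (hfar : ∀ ℓ, ℓ + 1 ≤ m → ¬ Reach adj ℓ u v) :
    GirthGt (fun x y => adj x y ∨ (x = u ∧ y = v) ∨ (x = v ∧ y = u)) m := by
  classical
  intro ℓ c h1 hm hrw hclosed
  obtain ⟨hadj, hred⟩ := hrw
  have hfar' : ∀ ℓ, ℓ + 1 ≤ m → ¬ Reach adj ℓ v u := fun ℓ hℓ hr => hfar ℓ hℓ (hr.symm hs)
  by_cases hT : ∃ i, i < ℓ ∧ ¬ adj (c i) (c (i + 1))
  · -- the first bad index
    obtain ⟨hi1, hi2⟩ := Nat.find_spec hT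
    have himin : ∀ k, k < Nat.find hT → adj (c k) (c (k + 1)) := by
      intro k hk
      by_contra hcon
      exact Nat.find_min hT hk ⟨by omega, hcon⟩
    set i := Nat.find hT with hi
    have hi3 : (c i = u ∧ c (i + 1) = v) ∨ (c i = v ∧ c (i + 1) = u) := by
      rcases hadj i hi1 with h2 | h2
      · exact absurd h2 hi2
      · exact h2
    by_cases hJ : ∃ j, i < j ∧ j < ℓ ∧ ¬ adj (c j) (c (j + 1))
    · obtain ⟨hj0, hj1, hj2⟩ := Nat.find_spec hJ
      have hjmin : ∀ k, i < k → k < Nat.find hJ → adj (c k) (c (k + 1)) := by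
        intro k hk0 hk
        by_contra hcon
        exact Nat.find_min hJ hk ⟨hk0, by omega, hcon⟩
      set j := Nat.find hJ with hj
      have hj3 : (c j = u ∧ c (j + 1) = v) ∨ (c j = v ∧ c (j + 1) = u) := by
        rcases hadj j hj1 with h2 | h2
        · exact absurd h2 hj2
        · exact h2
      have hreach : Reach adj (j - i - 1) (c (i + 1)) (c j) := by
        refine ⟨fun k => c (i + 1 + k), by simp, ?_, fun k hk => ?_⟩
        · show c (i + 1 + (j - i - 1)) = c j
          congr 1; omega
        · exact hjmin (i + 1 + k) (by omega) (by omega)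
      by_cases heq : c (i + 1) = c j
      · rcases Nat.eq_or_lt_of_le (show i + 1 ≤ j by omega) with h4 | h4
        · -- immediate backtracking
          have h5 := hred i (by omega)
          apply h5
          rcases hi3 with h6 | h6 <;> rcases hj3 with h7 | h7
          · exfalso; apply huv; rw [← h7.1, ← heq, h6.2]
          · rw [h6.1, show i + 2 = j + 1 by omega, h7.2]
          · rw [h6.1, show i + 2 = j + 1 by omega, h7.2]
          · exfalso; apply huv; rw [← h6.2, heq, h7.1]
        · refine h (j - i - 1) (fun k => c (i + 1 + k)) (by omega) (by omega) ⟨?_, ?_⟩ ?_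
          · intro k hk
            exact hjmin (i + 1 + k) (by omega) (by omega)
          · intro k hk
            exact hred (i + 1 + k) (by omega)
          · show c (i + 1 + 0) = c (i + 1 + (j - i - 1))
            rw [show i + 1 + (j - i - 1) = j by omega]
            exact heq
      · rcases hi3 with h6 | h6 <;> rcases hj3 with h7 | h7
        · rw [h6.2, h7.1] at hreach
          exact hfar' _ (by omega) hreach
        · exact heq (by rw [h6.2, h7.1])
        · exact heq (by rw [h6.2, h7.1])
        · rw [h6.2, h7.1] at hreach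
          exact hfar _ (by omega) hreach
    · push Not at hJ
      have hreach : Reach adj (ℓ - 1) (c (i + 1)) (c i) := by
        refine ⟨fun k => if k ≤ ℓ - (i + 1) then c (i + 1 + k) else c (k - (ℓ - (i + 1))),
          by simp, ?_, ?_⟩
        · by_cases h4 : ℓ - 1 ≤ ℓ - (i + 1)
          · have h5 : i = 0 := by omega
            simp only [h4, if_true]
            rw [show i + 1 + (ℓ - 1) = ℓ by omega, h5]
            exact hclosed.symm
          · simp only [h4, if_false]
            congr 1; omega
        · intro k hk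
          by_cases h4 : k + 1 ≤ ℓ - (i + 1)
          · have h5 : k ≤ ℓ - (i + 1) := by omega
            simp only [h4, h5, if_true]
            have h6 := hJ (i + 1 + k) (by omega) (by omega)
            rw [show i + 1 + (k + 1) = i + 1 + k + 1 by omega]
            exact h6
          · by_cases h5 : k ≤ ℓ - (i + 1)
            · simp only [h4, h5, if_true, if_false]
              rw [show i + 1 + k = ℓ by omega, show k + 1 - (ℓ - (i + 1)) = 0 + 1 by omega,
                ← hclosed]
              exact himin 0 (by omega)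
            · simp only [h4, h5, if_false]
              rw [show k + 1 - (ℓ - (i + 1)) = k - (ℓ - (i + 1)) + 1 by omega]
              exact himin _ (by omega)
      rcases hi3 with h6 | h6
      · rw [h6.1, h6.2] at hreach
        exact hfar' _ (by omega) hreach
      · rw [h6.1, h6.2] at hreach
        exact hfar _ (by omega) hreach
  · push Not at hT
    exact h ℓ c h1 hm ⟨fun i hi => hT i hi, hred⟩ hclosed

theorem moore [DecidableEq V] {adj : V → V → Prop} [DecidableRel adj]
    (hs : ∀ x y, adj x y → adj y x) {k d : ℕ} (hg : GirthGt adj (2 * k)) (W : Finset V)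
    {x0 : V} (hx0 : x0 ∈ W)
    (hdeg : ∀ x ∈ W, d + 1 ≤ (W.filter (fun y => adj x y)).card) : d ^ k ≤ W.card := by
  have key : ∀ j, j ≤ k → ∃ S ⊆ W, d ^ j ≤ S.card ∧
      ∀ x ∈ S, ∃ c : ℕ → V, c 0 = x0 ∧ c j = x ∧ RW adj j c := by
    intro j
    induction j with
    | zero =>
      intro _
      refine ⟨{x0}, by simpa using hx0, by simp, ?_⟩
      intro x hx
      refine ⟨fun _ => x0, rfl, (Finset.mem_singleton.mp hx).symm, ?_, ?_⟩
      · intro i hi; omega
      · intro i hi; omega
    | succ j ih =>
      intro hj
      obtain ⟨S, hSW, hScard, hS⟩ := ih (by omega)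
      choose! c hc0 hcj hcr using hS
      let C : V → Finset V := fun x => (W.filter (fun y => adj x y)).erase (c x (j - 1))
      have hCcard : ∀ x ∈ S, d ≤ (C x).card := by
        intro x hx
        have h1 := hdeg x (hSW hx)
        have h2 := Finset.pred_card_le_card_erase (s := W.filter (fun y => adj x y))
          (a := c x (j - 1))
        show d ≤ ((W.filter (fun y => adj x y)).erase (c x (j - 1))).card
        omega
      have hwalk : ∀ x ∈ S, ∀ y ∈ C x, RW adj (j + 1) (fun i => if i ≤ j then c x i else y) := by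
        intro x hx y hy
        have hy1 := Finset.mem_erase.mp hy
        have hy2 := (Finset.mem_filter.mp hy1.2).2
        refine ⟨fun i hi => ?_, fun i hi => ?_⟩
        · by_cases h3 : i + 1 ≤ j
          · have h4 : i ≤ j := by omega
            simp only [h3, h4, if_true]
            exact (hcr x hx).1 i (by omega)
          · have h4 : i = j := by omega
            subst h4
            simp only [le_refl, if_true, h3, if_false]
            rw [hcj x hx]
            exact hy2
        · by_cases h3 : i + 2 ≤ j
          · have h4 : i ≤ j := by omega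
            simp only [h3, h4, if_true]
            exact (hcr x hx).2 i h3
          · have h4 : i ≤ j := by omega
            have h5 : i = j - 1 := by omega
            simp only [h3, h4, if_true, if_false]
            rw [h5]
            exact hy1.1.symm
      have hdisj : ∀ x ∈ S, ∀ x' ∈ S, x ≠ x' → Disjoint (C x) (C x') := by
        intro x hx x' hx' hne
        rw [Finset.disjoint_left]
        intro y hy hy'
        have hw := hwalk x hx y hy
        have hw' := hwalk x' hx' y hy'
        set p : ℕ → V := fun i => if i ≤ j then c x i else y with hp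
        set p' : ℕ → V := fun i => if i ≤ j then c x' i else y with hp'
        have hpj : p (j + 1) = y := by simp [hp]
        have hpj' : p' (j + 1) = y := by simp [hp']
        have hpx : p j = x := by simp [hp, hcj x hx]
        have hpx' : p' j = x' := by simp [hp', hcj x' hx']
        have hp0 : p 0 = x0 := by simp [hp, hc0 x hx]
        have hp0' : p' 0 = x0 := by simp [hp', hc0 x' hx']
        refine hg (2 * (j + 1)) (fun i => if i ≤ j + 1 then p i else p' (2 * (j + 1) - i))
          (by omega) (by omega) ⟨?_, ?_⟩ ?_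
        · intro i hi
          by_cases h3 : i + 1 ≤ j + 1
          · have h4 : i ≤ j + 1 := by omega
            simp only [h3, h4, if_true]
            exact hw.1 i (by omega)
          · by_cases h4 : i ≤ j + 1
            · have h5 : i = j + 1 := by omega
              simp only [h3, h4, if_true, if_false]
              rw [h5, hpj, ← hpj']
              have h6 := hw'.1 j (by omega)
              rw [show 2 * (j + 1) - (j + 1 + 1) = j by omega]
              exact hs _ _ h6
            · simp only [h3, h4, if_false]
              have h6 := hw'.1 (2 * (j + 1) - (i + 1)) (by omega)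
              rw [show 2 * (j + 1) - (i + 1) + 1 = 2 * (j + 1) - i by omega] at h6
              exact hs _ _ h6
        · intro i hi
          by_cases h3 : i + 2 ≤ j + 1
          · have h4 : i ≤ j + 1 := by omega
            simp only [h3, h4, if_true]
            exact hw.2 i h3
          · by_cases h4 : i ≤ j + 1
            · simp only [h3, h4, if_true, if_false]
              by_cases h5 : i = j
              · rw [h5, hpx, show 2 * (j + 1) - (j + 2) = j by omega, hpx']
                exact hne
              · have h6 : i = j + 1 := by omega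
                rw [h6, hpj, ← hpj', show 2 * (j + 1) - (j + 1 + 2) = j - 1 by omega]
                have h7 := hw'.2 (j - 1) (by omega)
                rw [show j - 1 + 2 = j + 1 by omega] at h7
                exact h7.symm
            · simp only [h3, h4, if_false]
              have h7 := hw'.2 (2 * (j + 1) - (i + 2)) (by omega)
              rw [show 2 * (j + 1) - (i + 2) + 2 = 2 * (j + 1) - i by omega] at h7
              exact h7.symm
        · have h4 : ¬ (2 * (j + 1) ≤ j + 1) := by omega
          simp only [Nat.zero_le, if_true, h4, if_false, Nat.sub_self]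
          rw [hp0, hp0']
      refine ⟨S.biUnion C, ?_, ?_, ?_⟩
      · intro y hy
        obtain ⟨x, _, hx2⟩ := Finset.mem_biUnion.mp hy
        exact (Finset.mem_filter.mp (Finset.mem_erase.mp hx2).2).1
      · rw [Finset.card_biUnion (fun x hx x' hx' hne => hdisj x hx x' hx' hne)]
        calc d ^ (j + 1) = d ^ j * d := pow_succ _ _
          _ ≤ S.card * d := Nat.mul_le_mul_right _ hScard
          _ = ∑ x ∈ S, d := by rw [Finset.sum_const, smul_eq_mul]
          _ ≤ ∑ x ∈ S, (C x).card := Finset.sum_le_sum hCcard
      · intro y hy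
        obtain ⟨x, hx1, hx2⟩ := Finset.mem_biUnion.mp hy
        refine ⟨_, ?_, ?_, hwalk x hx1 y hx2⟩
        · simp [hc0 x hx1]
        · simp
  obtain ⟨S, hSW, hScard, _⟩ := key k le_rfl
  exact hScard.trans (Finset.card_le_card hSW)

section Edges

variable {E : Type*} [DecidableEq E] (a b : E → V)

/-- The edge `e` joins `x` and `y`. -/
def Joins (e : E) (x y : V) : Prop := (a e = x ∧ b e = y) ∨ (a e = y ∧ b e = x)

/-- Adjacency through the edges of `H`. -/
def Adj (H : Finset E) (x y : V) : Prop := ∃ e ∈ H, Joins a b e x y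

omit [DecidableEq E] in
theorem Adj.symm' (H : Finset E) (x y : V) (h : Adj a b H x y) : Adj a b H y x := by
  obtain ⟨e, he, h1 | h1⟩ := h
  · exact ⟨e, he, Or.inr h1⟩
  · exact ⟨e, he, Or.inl h1⟩

/-- No loops and no parallel edges. -/
def Simple (H : Finset E) : Prop :=
  (∀ e ∈ H, a e ≠ b e) ∧ ∀ e ∈ H, ∀ e' ∈ H, Joins a b e (a e') (b e') → e = e'

theorem sparse [Fintype V] [DecidableEq V] {H : Finset E} (hH : Simple a b H) {k d : ℕ}
    (hg : GirthGt (Adj a b H) (2 * k)) (hd : Fintype.card V < d ^ k) (W : Finset V) :
    (H.filter (fun e => a e ∈ W ∧ b e ∈ W)).card ≤ d * W.card := by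
  classical
  induction hn : W.card generalizing W with
  | zero =>
    have hW : W = ∅ := Finset.card_eq_zero.mp hn
    subst hW
    simp
  | succ n ih =>
    have hne : W.Nonempty := Finset.card_pos.mp (by omega)
    obtain ⟨x0, hx0⟩ := hne
    obtain ⟨x, hxW, hx⟩ : ∃ x ∈ W, (W.filter (fun y => Adj a b H x y)).card ≤ d := by
      by_contra hcon
      push Not at hcon
      have h1 := moore (Adj.symm' a b H) hg W hx0 (fun x hx => hcon x hx)
      have h2 : W.card ≤ Fintype.card V := Finset.card_le_univ W
      omega
    have h1 := ih (W.erase x) (by rw [Finset.card_erase_of_mem hxW]; omega)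
    -- edges at x
    have h2 : (H.filter (fun e => (a e ∈ W ∧ b e ∈ W) ∧ (a e = x ∨ b e = x))).card ≤ d := by
      refine le_trans ?_ hx
      refine Finset.card_le_card_of_injOn (fun e => if a e = x then b e else a e) ?_ ?_
      · intro e he
        have he' := Finset.mem_filter.mp (Finset.mem_coe.mp he)
        obtain ⟨heH, ⟨haW, hbW⟩, hor⟩ := he'
        rw [Finset.mem_coe, Finset.mem_filter]
        by_cases h3 : a e = x
        · simp only [h3, if_true]
          exact ⟨hbW, e, heH, Or.inl ⟨h3, rfl⟩⟩
        · simp only [h3, if_false]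
          have h4 : b e = x := by tauto
          exact ⟨haW, e, heH, Or.inr ⟨rfl, h4⟩⟩
      · intro e he e' he' hee
        obtain ⟨heH, ⟨haW, hbW⟩, hor⟩ := Finset.mem_filter.mp (Finset.mem_coe.mp he)
        obtain ⟨heH', ⟨haW', hbW'⟩, hor'⟩ := Finset.mem_filter.mp (Finset.mem_coe.mp he')
        simp only at hee
        apply hH.2 e heH e' heH'
        by_cases h3 : a e = x <;> by_cases h4 : a e' = x
        · simp only [h3, h4, if_true] at hee
          exact Or.inl ⟨h3.trans h4.symm, hee⟩
        · simp only [h3, h4, if_true, if_false] at hee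
          have h5 : b e' = x := by tauto
          exact Or.inr ⟨h3.trans h5.symm, hee⟩
        · simp only [h3, h4, if_true, if_false] at hee
          have h5 : b e = x := by tauto
          exact Or.inr ⟨hee, h5.trans h4.symm⟩
        · simp only [h3, h4, if_false] at hee
          have h5 : b e = x := by tauto
          have h6 : b e' = x := by tauto
          exact Or.inl ⟨hee, h5.trans h6.symm⟩
    have h3 : H.filter (fun e => a e ∈ W ∧ b e ∈ W)
        ⊆ H.filter (fun e => a e ∈ W.erase x ∧ b e ∈ W.erase x)
          ∪ H.filter (fun e => (a e ∈ W ∧ b e ∈ W) ∧ (a e = x ∨ b e = x)) := by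
      intro e he
      obtain ⟨heH, haW, hbW⟩ := Finset.mem_filter.mp he
      rw [Finset.mem_union, Finset.mem_filter, Finset.mem_filter, Finset.mem_erase,
        Finset.mem_erase]
      tauto
    calc (H.filter (fun e => a e ∈ W ∧ b e ∈ W)).card
        ≤ _ := Finset.card_le_card h3
      _ ≤ _ := Finset.card_union_le _ _
      _ ≤ d * n + d := Nat.add_le_add h1 h2
      _ = d * (n + 1) := by ring

theorem sparse_card [Fintype V] [DecidableEq V] {H : Finset E} (hH : Simple a b H) {k d : ℕ}
    (hg : GirthGt (Adj a b H) (2 * k)) (hd : Fintype.card V < d ^ k) :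
    H.card ≤ d * Fintype.card V := by
  have h := sparse a b hH hg hd Finset.univ
  simpa using h

/-- Greedy hop-spanner: every edge left out has a short detour through edges that are at least as
heavy. -/
theorem greedy (w : E → ℝ) {m : ℕ} (hm : 2 ≤ m) (S : Finset E) :
    ∃ H ⊆ S, Simple a b H ∧ GirthGt (Adj a b H) m ∧
      ∀ e ∈ S \ H, ∃ ℓ < m, Reach (fun x y => ∃ e' ∈ H, w e ≤ w e' ∧ Joins a b e' x y) ℓ
        (a e) (b e) := by
  classical
  induction S using Finset.induction_on_max_value (fun e => - w e) with
  | empty =>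
    refine ⟨∅, le_refl _, ⟨by simp, by simp⟩, ?_, by simp⟩
    intro ℓ c h1 _ hrw
    obtain ⟨e, he, _⟩ := hrw.1 0 (by omega)
    simp at he
  | insert e0 S he0 hmax ih =>
    obtain ⟨H, hHS, hsimp, hg, hH⟩ := ih
    by_cases hr : ∃ ℓ < m, Reach (Adj a b H) ℓ (a e0) (b e0)
    · refine ⟨H, hHS.trans (Finset.subset_insert _ _), hsimp, hg, ?_⟩
      intro e he
      obtain ⟨he1, he2⟩ := Finset.mem_sdiff.mp he
      rcases Finset.mem_insert.mp he1 with h3 | h3
      · subst h3
        obtain ⟨ℓ, hℓ, c, hc0, hc1, hc2⟩ := hr
        refine ⟨ℓ, hℓ, c, hc0, hc1, fun i hi => ?_⟩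
        obtain ⟨e', he', hj⟩ := hc2 i hi
        have := hmax e' (hHS he')
        exact ⟨e', he', by linarith, hj⟩
      · exact hH e (Finset.mem_sdiff.mpr ⟨h3, he2⟩)
    · push Not at hr
      have hne : a e0 ≠ b e0 := by
        intro h
        exact hr 0 (by omega) ⟨fun _ => a e0, rfl, h, fun i hi => by omega⟩
      have hadj : ∀ x y, Adj a b (insert e0 H) x y ↔
          (Adj a b H x y ∨ (x = a e0 ∧ y = b e0) ∨ (x = b e0 ∧ y = a e0)) := by
        intro x y
        constructor
        · rintro ⟨e, he, hj⟩
          rcases Finset.mem_insert.mp he with h3 | h3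
          · subst h3
            rcases hj with ⟨h4, h5⟩ | ⟨h4, h5⟩
            · exact Or.inr (Or.inl ⟨h4.symm, h5.symm⟩)
            · exact Or.inr (Or.inr ⟨h5.symm, h4.symm⟩)
          · exact Or.inl ⟨e, h3, hj⟩
        · rintro (⟨e, he, hj⟩ | ⟨h4, h5⟩ | ⟨h4, h5⟩)
          · exact ⟨e, Finset.mem_insert_of_mem he, hj⟩
          · exact ⟨e0, Finset.mem_insert_self _ _, Or.inl ⟨h4.symm, h5.symm⟩⟩
          · exact ⟨e0, Finset.mem_insert_self _ _, Or.inr ⟨h5.symm, h4.symm⟩⟩
      refine ⟨insert e0 H, Finset.insert_subset_insert _ hHS, ⟨?_, ?_⟩, ?_, ?_⟩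
      · intro e he
        rcases Finset.mem_insert.mp he with h3 | h3
        · rw [h3]; exact hne
        · exact hsimp.1 e h3
      · -- no parallel edges
        have hpar : ∀ e ∈ H, ¬ Joins a b e (a e0) (b e0) := by
          intro e he hj
          refine hr 1 (by omega) ⟨fun i => if i = 0 then a e0 else b e0, by simp, by simp, ?_⟩
          intro i hi
          have : i = 0 := by omega
          subst this
          exact ⟨e, he, by simpa using hj⟩
        intro e he e' he' hj
        rcases Finset.mem_insert.mp he with h3 | h3 <;> rcases Finset.mem_insert.mp he' with h4 | h4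
        · rw [h3, h4]
        · exfalso
          subst h3
          apply hpar e' h4
          rcases hj with ⟨h5, h6⟩ | ⟨h5, h6⟩
          · exact Or.inl ⟨h5.symm, h6.symm⟩
          · exact Or.inr ⟨h6.symm, h5.symm⟩
        · exfalso
          subst h4
          exact hpar e h3 hj
        · exact hsimp.2 e h3 e' h4 hj
      · have h5 := girth_add (Adj.symm' a b H) hg hne (fun ℓ hℓ => hr ℓ (by omega))
        intro ℓ c h1 h2 hrw
        exact h5 ℓ c h1 h2 ⟨fun i hi => (hadj _ _).mp (hrw.1 i hi), hrw.2⟩
      · intro e he
        obtain ⟨he1, he2⟩ := Finset.mem_sdiff.mp he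
        have h3 : e ≠ e0 := fun h => he2 (h ▸ Finset.mem_insert_self _ _)
        have h4 : e ∈ S := (Finset.mem_insert.mp he1).resolve_left h3
        have h5 : e ∉ H := fun h => he2 (Finset.mem_insert_of_mem h)
        obtain ⟨ℓ, hℓ, c, hc0, hc1, hc2⟩ := hH e (Finset.mem_sdiff.mpr ⟨h4, h5⟩)
        refine ⟨ℓ, hℓ, c, hc0, hc1, fun i hi => ?_⟩
        obtain ⟨e', he', hw, hj⟩ := hc2 i hi
        exact ⟨e', Finset.mem_insert_of_mem he', hw, hj⟩

end Edges

end Pool.Agent.Helper81.Flow
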