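import Mathlib
import Pool.Agent.Helper81.Flow.Girth

/-!
Flows on a finite set of edges, and bundles of greedy hop-spanners.
-/

namespace Pool.Agent.Helper81.Flow

open Finset

section Sums

variable {ι : Type*}

/-- `∑ x^p ≤ (∑ x)^p` for `p ≥ 1`. -/
theorem sum_rpow_le {p : ℝ} (hp : 1 ≤ p) (s : Finset ι) (x : ι → ℝ) (hx : ∀ i, 0 ≤ x i) :
    ∑ i ∈ s, x i ^ p ≤ (∑ i ∈ s, x i) ^ p := by
  classical
  induction s using Finset.induction_on with
  | empty => simp [Real.zero_rpow (by linarith : p ≠ 0)]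
  | insert a s ha ih =>
    rw [Finset.sum_insert ha, Finset.sum_insert ha]
    calc x a ^ p + ∑ i ∈ s, x i ^ p ≤ x a ^ p + (∑ i ∈ s, x i) ^ p := by linarith
      _ ≤ _ := Real.add_rpow_le_rpow_add (hx a) (Finset.sum_nonneg fun i _ => hx i) hp

/-- `(∑ x)^r ≤ ∑ x^r` for `0 < r ≤ 1`. -/
theorem rpow_sum_le {r : ℝ} (hr0 : 0 < r) (hr : r ≤ 1) (s : Finset ι) (x : ι → ℝ)
    (hx : ∀ i, 0 ≤ x i) : (∑ i ∈ s, x i) ^ r ≤ ∑ i ∈ s, x i ^ r := by
  classical
  induction s using Finset.induction_on with
  | empty => simp [Real.zero_rpow hr0.ne']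
  | insert a s ha ih =>
    rw [Finset.sum_insert ha, Finset.sum_insert ha]
    calc (x a + ∑ i ∈ s, x i) ^ r ≤ x a ^ r + (∑ i ∈ s, x i) ^ r :=
          Real.rpow_add_le_add_rpow (hx a) (Finset.sum_nonneg fun i _ => hx i) hr0.le hr
      _ ≤ _ := by linarith

end Sums

variable {V E : Type*} [DecidableEq V] [Fintype E] [DecidableEq E] (a b : E → V)

/-- The demand of a unit flow from `u` to `v`. -/
def dem (u v x : V) : ℝ := (if u = x then 1 else 0) - (if v = x then 1 else 0)

/-- Net outflow at `x` of the flow `f`; the edge `e` is oriented from `a e` to `b e`. -/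
def net (f : E → ℝ) (x : V) : ℝ := ∑ e, f e * dem (a e) (b e) x

omit [DecidableEq E] in
theorem net_add (f g : E → ℝ) (x : V) : net a b (fun e => f e + g e) x = net a b f x + net a b g x := by
  unfold net
  rw [← Finset.sum_add_distrib]
  exact Finset.sum_congr rfl fun e _ => by ring

omit [DecidableEq E] in
theorem net_smul (c : ℝ) (f : E → ℝ) (x : V) : net a b (fun e => c * f e) x = c * net a b f x := by
  unfold net
  rw [Finset.mul_sum]
  exact Finset.sum_congr rfl fun e _ => by ring

omit [DecidableEq E] in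
theorem net_sub (f g : E → ℝ) (x : V) : net a b (fun e => f e - g e) x = net a b f x - net a b g x := by
  unfold net
  rw [← Finset.sum_sub_distrib]
  exact Finset.sum_congr rfl fun e _ => by ring

omit [DecidableEq E] in
theorem net_sum {ι : Type*} (s : Finset ι) (f : ι → E → ℝ) (x : V) :
    net a b (fun e => ∑ i ∈ s, f i e) x = ∑ i ∈ s, net a b (f i) x := by
  unfold net
  rw [Finset.sum_comm]
  exact Finset.sum_congr rfl fun e _ => by rw [Finset.sum_mul]

theorem net_single (e : E) (c : ℝ) (x : V) :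
    net a b (fun e' => if e' = e then c else 0) x = c * dem (a e) (b e) x := by
  unfold net
  rw [Finset.sum_eq_single e]
  · simp
  · intro e' _ h; simp [h]
  · intro h; exact absurd (Finset.mem_univ e) h

/-- A walk carries a unit flow. -/
theorem walk_flow (P : E → Prop) (ℓ : ℕ) (c : ℕ → V)
    (hc : ∀ i, i < ℓ → ∃ e, P e ∧ Joins a b e (c i) (c (i + 1))) :
    ∃ g : E → ℝ, (∀ x, net a b g x = dem (c 0) (c ℓ) x) ∧ (∀ e, ¬ P e → g e = 0) ∧
      ∑ e, |g e| ≤ ℓ := by
  induction ℓ with
  | zero =>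
    refine ⟨fun _ => 0, fun x => ?_, fun _ _ => rfl, by simp⟩
    simp [net, dem]
  | succ ℓ ih =>
    obtain ⟨g, hg1, hg2, hg3⟩ := ih (fun i hi => hc i (by omega))
    obtain ⟨e, hPe, hj⟩ := hc ℓ (by omega)
    obtain ⟨s, hs1, hs2⟩ : ∃ s : ℝ, |s| = 1 ∧ ∀ x, s * dem (a e) (b e) x
        = dem (c ℓ) (c (ℓ + 1)) x := by
      rcases hj with ⟨h1, h2⟩ | ⟨h1, h2⟩
      · exact ⟨1, by simp, fun x => by rw [h1, h2, one_mul]⟩
      · exact ⟨-1, by simp, fun x => by rw [h1, h2]; unfold dem; ring⟩
    refine ⟨fun e' => g e' + (if e' = e then s else 0), fun x => ?_, fun e' he' => ?_, ?_⟩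
    · rw [net_add, hg1, net_single, hs2]
      unfold dem; ring
    · show g e' + (if e' = e then s else 0) = 0
      rw [hg2 e' he', if_neg (fun h => he' (by rw [h]; exact hPe)), add_zero]
    · calc ∑ e', |g e' + (if e' = e then s else 0)|
          ≤ ∑ e', (|g e'| + |if e' = e then s else 0|) :=
            Finset.sum_le_sum fun e' _ => abs_add_le _ _
        _ = ∑ e', |g e'| + ∑ e', |if e' = e then s else 0| := Finset.sum_add_distrib
        _ ≤ ℓ + 1 := by
          have h4 : ∑ e', |if e' = e then s else (0:ℝ)| = 1 := by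
            rw [Finset.sum_eq_single e]
            · simp [hs1]
            · intro e' _ h; simp [h]
            · intro h; exact absurd (Finset.mem_univ e) h
          rw [h4]; linarith
        _ = ((ℓ + 1 : ℕ) : ℝ) := by push_cast; ring

/-- Bundles: every edge outside the bundle has `t` disjoint certificates inside it. -/
theorem bundle [Fintype V] {p : ℝ} (hp : 1 ≤ p) {k : ℕ} (hk : 1 ≤ k)
    (hcard : Fintype.card V < 2 ^ k) (S : Finset E)
    (w : E → ℝ) (hw : ∀ e ∈ S, 0 < w e) (t : ℕ) :
    ∃ B ⊆ S, B.card ≤ t * (2 * Fintype.card V) ∧ ∀ e ∈ S \ B, ∃ g : E → ℝ,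
      (∀ x, net a b g x = t * dem (a e) (b e) x) ∧ (∀ e', e' ∉ B → g e' = 0) ∧
      ∑ e', |g e' / w e'| ^ p ≤ t * ((2 * k : ℝ) / w e) ^ p := by
  classical
  induction t with
  | zero =>
    refine ⟨∅, Finset.empty_subset _, by simp, fun e _ => ⟨fun _ => 0, fun x => ?_, fun _ _ => rfl, ?_⟩⟩
    · simp [net]
    · simp [Real.zero_rpow (by linarith : p ≠ 0)]
  | succ t ih =>
    obtain ⟨B, hBS, hBcard, hB⟩ := ih
    obtain ⟨H, hHS, hsimp, hg, hH⟩ := greedy a b w (m := 2 * k) (by omega) (S \ B)
    have hHcard : H.card ≤ 2 * Fintype.card V := sparse_card a b hsimp hg hcard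
    have hdisj : Disjoint B H := by
      rw [Finset.disjoint_left]
      intro e he he'
      exact (Finset.mem_sdiff.mp (hHS he')).2 he
    refine ⟨B ∪ H, Finset.union_subset hBS (hHS.trans Finset.sdiff_subset), ?_, ?_⟩
    · calc (B ∪ H).card ≤ B.card + H.card := Finset.card_union_le _ _
        _ ≤ t * (2 * Fintype.card V) + 2 * Fintype.card V := Nat.add_le_add hBcard hHcard
        _ = (t + 1) * (2 * Fintype.card V) := by ring
    · intro e he
      obtain ⟨heS, heBH⟩ := Finset.mem_sdiff.mp he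
      have heB : e ∉ B := fun h => heBH (Finset.mem_union_left _ h)
      have heH : e ∉ H := fun h => heBH (Finset.mem_union_right _ h)
      obtain ⟨g, hg1, hg2, hg3⟩ := hB e (Finset.mem_sdiff.mpr ⟨heS, heB⟩)
      obtain ⟨ℓ, hℓ, c, hc0, hc1, hc2⟩ := hH e (Finset.mem_sdiff.mpr
        ⟨Finset.mem_sdiff.mpr ⟨heS, heB⟩, heH⟩)
      obtain ⟨g', hg1', hg2', hg3'⟩ := walk_flow a b (fun e' => e' ∈ H ∧ w e ≤ w e') ℓ c
        (fun i hi => by
          obtain ⟨e', h1, h2, h3⟩ := hc2 i hi
          exact ⟨e', ⟨h1, h2⟩, h3⟩)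
      have hwe := hw e heS
      have hg'H : ∀ e', e' ∉ H → g' e' = 0 := fun e' h => hg2' e' (fun h' => h h'.1)
      have hcost' : ∑ e', |g' e' / w e'| ^ p ≤ ((2 * k : ℝ) / w e) ^ p := by
        calc ∑ e', |g' e' / w e'| ^ p ≤ ∑ e', (|g' e'| / w e) ^ p := by
              apply Finset.sum_le_sum
              intro e' _
              by_cases h : e' ∈ H ∧ w e ≤ w e'
              · apply Real.rpow_le_rpow (abs_nonneg _) _ (by linarith)
                rw [abs_div, abs_of_pos (lt_of_lt_of_le hwe h.2)]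
                exact div_le_div_of_nonneg_left (abs_nonneg _) hwe h.2
              · rw [hg2' e' h]; simp
          _ ≤ (∑ e', |g' e'| / w e) ^ p :=
              sum_rpow_le hp _ _ (fun e' => div_nonneg (abs_nonneg _) hwe.le)
          _ ≤ _ := by
              apply Real.rpow_le_rpow (Finset.sum_nonneg fun e' _ =>
                div_nonneg (abs_nonneg _) hwe.le) _ (by linarith)
              rw [← Finset.sum_div]
              apply div_le_div_of_nonneg_right _ hwe.le
              refine hg3'.trans ?_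
              exact_mod_cast hℓ.le
      refine ⟨fun e' => g e' + g' e', fun x => ?_, fun e' he' => ?_, ?_⟩
      · rw [net_add, hg1, hg1', hc0, hc1]
        push_cast; ring
      · show g e' + g' e' = 0
        rw [hg2 e' (fun h => he' (Finset.mem_union_left _ h)),
          hg'H e' (fun h => he' (Finset.mem_union_right _ h)), add_zero]
      · have hsplit : ∀ e', |(g e' + g' e') / w e'| ^ p
            = |g e' / w e'| ^ p + |g' e' / w e'| ^ p := by
          intro e'
          have hp0 : p ≠ 0 := by linarith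
          by_cases h : e' ∈ B
          · have h2 : e' ∉ H := Finset.disjoint_left.mp hdisj h
            rw [hg'H e' h2]; simp [Real.zero_rpow hp0]
          · rw [hg2 e' h]; simp [Real.zero_rpow hp0]
        rw [Finset.sum_congr rfl (fun e' _ => hsplit e'), Finset.sum_add_distrib]
        push_cast
        linarith

end Pool.Agent.Helper81.Flow
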