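import Mathlib
import Pool.Agent.Helper81.Flow.Bundle

/-!
Optimal flows and their potentials.
-/

namespace Pool.Agent.Helper81.Flow

open Finset

variable {V E : Type*} [Fintype V] [DecidableEq V] [Fintype E] [DecidableEq E] (a b : E → V)

/-- `f` is a unit flow from `s` to `t` supported on `S`. -/
def UFlow (S : Finset E) (s t : V) (f : E → ℝ) : Prop :=
  (∀ x, net a b f x = dem s t x) ∧ ∀ e, e ∉ S → f e = 0

/-- The `p`-th power of the cost. -/
noncomputable def pc (p : ℝ) (w f : E → ℝ) : ℝ := ∑ e, |f e / w e| ^ p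

omit [DecidableEq E] in
theorem pc_nonneg (p : ℝ) (w f : E → ℝ) : 0 ≤ pc p w f :=
  Finset.sum_nonneg fun _ _ => Real.rpow_nonneg (abs_nonneg _) _

omit [Fintype V] [DecidableEq E] in
theorem net_continuous (x : V) : Continuous fun f : E → ℝ => net a b f x := by
  unfold net
  exact continuous_finsetSum _ fun e _ => (continuous_apply e).mul continuous_const

omit [DecidableEq E] in
theorem pc_continuous {p : ℝ} (hp : 0 ≤ p) (w : E → ℝ) : Continuous fun f : E → ℝ => pc p w f := by
  unfold pc
  refine continuous_finsetSum _ fun e _ => ?_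
  exact (((continuous_apply e).div_const _).abs).rpow_const (fun _ => Or.inr hp)

omit [Fintype V] [DecidableEq E] in
theorem exists_optimal {p : ℝ} (hp : 0 < p) {S : Finset E} {w : E → ℝ}
    (hw : ∀ e ∈ S, 0 < w e) {s t : V} {f0 : E → ℝ} (hf0 : UFlow a b S s t f0) :
    ∃ f, UFlow a b S s t f ∧ ∀ f', UFlow a b S s t f' → pc p w f ≤ pc p w f' := by
  set M : ℝ := (pc p w f0) ^ (1 / p) with hM
  set K : Set (E → ℝ) := {f | UFlow a b S s t f} ∩
    Set.pi Set.univ (fun e => Set.Icc (-(M * |w e|)) (M * |w e|)) with hK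
  have hclosed : IsClosed {f : E → ℝ | UFlow a b S s t f} := by
    have h1 : {f : E → ℝ | UFlow a b S s t f}
        = (⋂ x, {f : E → ℝ | net a b f x = dem s t x}) ∩ (⋂ e, ⋂ (_ : e ∉ S), {f : E → ℝ | f e = 0}) := by
      ext f
      simp only [UFlow, Set.mem_inter_iff, Set.mem_iInter, Set.mem_ofPred_eq]
    rw [h1]
    refine IsClosed.inter (isClosed_iInter fun x => ?_) (isClosed_iInter fun e =>
      isClosed_iInter fun _ => ?_)
    · exact isClosed_eq (net_continuous a b x) continuous_const
    · exact isClosed_eq (continuous_apply e) continuous_const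
  have hcomp : IsCompact K :=
    (isCompact_univ_pi fun e => isCompact_Icc).inter_left hclosed
  have hmem : ∀ f, UFlow a b S s t f → pc p w f ≤ pc p w f0 → f ∈ K := by
    intro f hf hle
    refine ⟨hf, ?_⟩
    intro e _
    rw [Set.mem_Icc, ← abs_le]
    by_cases he : e ∈ S
    · have hwe := hw e he
      have h1 : |f e / w e| ^ p ≤ pc p w f0 :=
        (Finset.single_le_sum (f := fun e => |f e / w e| ^ p)
          (fun e _ => Real.rpow_nonneg (abs_nonneg _) _) (Finset.mem_univ e)).trans hle
      have h2 : |f e / w e| ≤ M := by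
        have h3 := Real.rpow_le_rpow (Real.rpow_nonneg (abs_nonneg _) _) h1
          (show 0 ≤ 1 / p by positivity)
        rwa [← Real.rpow_mul (abs_nonneg _), mul_one_div_cancel hp.ne', Real.rpow_one] at h3
      rw [abs_div] at h2
      rwa [div_le_iff₀ (by positivity)] at h2
    · rw [hf.2 e he, abs_zero]
      exact mul_nonneg (Real.rpow_nonneg (pc_nonneg _ _ _) _) (abs_nonneg _)
  obtain ⟨f, hfK, hfmin⟩ := hcomp.exists_isMinOn ⟨f0, hmem f0 hf0 le_rfl⟩
    (pc_continuous hp.le w).continuousOn
  refine ⟨f, hfK.1, fun f' hf' => ?_⟩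
  rcases le_total (pc p w f') (pc p w f0) with h | h
  · exact hfmin (hmem f' hf' h)
  · exact (hfmin (hmem f0 hf0 le_rfl)).trans h

omit [Fintype V] [DecidableEq E] in
/-- First-order optimality. -/
theorem stationary {p : ℝ} (hp : 1 < p) {S : Finset E} {w : E → ℝ} {s t : V} {f : E → ℝ}
    (hf : UFlow a b S s t f) (hmin : ∀ f', UFlow a b S s t f' → pc p w f ≤ pc p w f')
    {z : E → ℝ} (hz : ∀ x, net a b z x = 0) (hzS : ∀ e, e ∉ S → z e = 0) :
    ∑ e, (|f e / w e| ^ (p - 2) * (f e / w e) / w e) * z e = 0 := by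
  have hd : HasDerivAt (fun ε : ℝ => pc p w (fun e => f e + ε * z e))
      (∑ e, (p * |(f e + 0 * z e) / w e| ^ (p - 2) * ((f e + 0 * z e) / w e)) * (z e / w e)) 0 := by
    unfold pc
    refine HasDerivAt.fun_sum fun e _ => ?_
    have h1 : HasDerivAt (fun ε : ℝ => (f e + ε * z e) / w e) (z e / w e) 0 := by
      have h2 : HasDerivAt (fun ε : ℝ => f e + ε * z e) (z e) 0 := by
        have := (hasDerivAt_id (0:ℝ)).mul_const (z e)
        simpa using this.const_add (f e)
      exact h2.div_const _
    exact (hasDerivAt_abs_rpow ((f e + 0 * z e) / w e) hp).comp (0:ℝ) h1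
  have hmin0 : IsLocalMin (fun ε : ℝ => pc p w (fun e => f e + ε * z e)) 0 := by
    refine Filter.Eventually.of_forall fun ε => ?_
    have h1 : UFlow a b S s t (fun e => f e + ε * z e) := by
      refine ⟨fun x => ?_, fun e he => ?_⟩
      · rw [net_add, net_smul, hf.1, hz, mul_zero, add_zero]
      · show f e + ε * z e = 0
        rw [hf.2 e he, hzS e he]; ring
    have h2 := hmin _ h1
    simpa using h2
  have h0 := hmin0.hasDerivAt_eq_zero hd
  have h3 : ∑ e, (p * |(f e + 0 * z e) / w e| ^ (p - 2) * ((f e + 0 * z e) / w e)) * (z e / w e)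
      = p * ∑ e, (|f e / w e| ^ (p - 2) * (f e / w e) / w e) * z e := by
    rw [Finset.mul_sum]
    refine Finset.sum_congr rfl fun e _ => ?_
    rw [zero_mul, add_zero]
    ring
  rw [h3] at h0
  rcases mul_eq_zero.mp h0 with h4 | h4
  · linarith
  · exact h4

omit [Fintype V] in
/-- A functional that vanishes on all circulations of `S` is a potential difference on `S`. -/
theorem exists_potential {S : Finset E} {J : E → ℝ}
    (hJ : ∀ z : E → ℝ, (∀ x, net a b z x = 0) → (∀ e, e ∉ S → z e = 0) → ∑ e, J e * z e = 0) :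
    ∃ φ : V → ℝ, ∀ e ∈ S, J e = φ (a e) - φ (b e) := by
  let D : (E → ℝ) →ₗ[ℝ] (V → ℝ) × (E → ℝ) :=
    { toFun := fun z => (fun x => net a b z x, fun e => if e ∈ S then 0 else z e)
      map_add' := by
        intro z z'
        refine Prod.ext ?_ ?_
        · funext x
          exact net_add a b z z' x
        · funext e
          show (if e ∈ S then (0:ℝ) else z e + z' e) = (if e ∈ S then 0 else z e) + (if e ∈ S then 0 else z' e)
          split_ifs <;> simp
      map_smul' := by
        intro c z
        refine Prod.ext ?_ ?_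
        · funext x
          exact net_smul a b c z x
        · funext e
          show (if e ∈ S then (0:ℝ) else c * z e) = c * (if e ∈ S then 0 else z e)
          split_ifs <;> simp }
  let Jf : (E → ℝ) →ₗ[ℝ] ℝ :=
    { toFun := fun z => ∑ e, J e * z e
      map_add' := by
        intro z z'
        rw [← Finset.sum_add_distrib]
        exact Finset.sum_congr rfl fun e _ => by rw [Pi.add_apply]; ring
      map_smul' := by
        intro c z
        simp only [RingHom.id_apply, smul_eq_mul, Finset.mul_sum]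
        exact Finset.sum_congr rfl fun e _ => by rw [Pi.smul_apply, smul_eq_mul]; ring }
  have hann : Jf ∈ (LinearMap.ker D).dualAnnihilator := by
    rw [Submodule.mem_dualAnnihilator]
    intro z hz
    rw [LinearMap.mem_ker] at hz
    have h1 : ∀ x, net a b z x = 0 := fun x => congrFun (congrArg Prod.fst hz) x
    have h2 : ∀ e, e ∉ S → z e = 0 := by
      intro e he
      have h3 := congrFun (congrArg Prod.snd hz) e
      have h4 : (if e ∈ S then (0:ℝ) else z e) = 0 := h3
      rwa [if_neg he] at h4
    exact hJ z h1 h2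
  rw [← LinearMap.range_dualMap_eq_dualAnnihilator_ker] at hann
  obtain ⟨ℓ, hℓ⟩ := hann
  refine ⟨fun x => ℓ (Pi.single x 1, 0), fun e he => ?_⟩
  have h1 : Jf (fun e' => if e' = e then 1 else 0) = J e := by
    show ∑ e', J e' * (if e' = e then (1:ℝ) else 0) = J e
    simp
  have h2 : Jf (fun e' => if e' = e then 1 else 0) = ℓ (D (fun e' => if e' = e then 1 else 0)) := by
    rw [← hℓ]; rfl
  have h3 : D (fun e' => if e' = e then 1 else 0)
      = (Pi.single (a e) 1, 0) - (Pi.single (b e) 1, 0) := by
    refine Prod.ext ?_ ?_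
    · funext x
      show net a b (fun e' => if e' = e then 1 else 0) x
        = (Pi.single (a e) 1 - Pi.single (b e) 1 : V → ℝ) x
      rw [net_single, one_mul, Pi.sub_apply, Pi.single_apply, Pi.single_apply]
      unfold dem
      simp only [eq_comm]
    · funext e'
      show (if e' ∈ S then (0:ℝ) else if e' = e then 1 else 0) = (0 - 0 : E → ℝ) e'
      by_cases h4 : e' ∈ S
      · simp [h4]
      · have h5 : e' ≠ e := fun h => h4 (h ▸ he)
        simp [h4, h5]
  rw [← h1, h2, h3, map_sub]

/-- Optimal flow together with its dual certificate. -/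
theorem duality {p q : ℝ} (hpq : p.HolderConjugate q) {S : Finset E} {w : E → ℝ}
    (hw : ∀ e ∈ S, 0 < w e) {s t : V} {f0 : E → ℝ} (hf0 : UFlow a b S s t f0) :
    ∃ f J : E → ℝ, UFlow a b S s t f ∧ (∀ f', UFlow a b S s t f' → pc p w f ≤ pc p w f') ∧
      (∀ f', UFlow a b S s t f' → ∑ e, f' e * J e = pc p w f) ∧
      ∀ e ∈ S, |w e * J e| ^ q = |f e / w e| ^ p := by
  have hp1 : 1 < p := hpq.lt
  obtain ⟨f, hf, hmin⟩ := exists_optimal a b (p := p) (by linarith) hw hf0
  set J : E → ℝ := fun e => |f e / w e| ^ (p - 2) * (f e / w e) / w e with hJ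
  obtain ⟨φ, hφ⟩ := exists_potential a b (S := S) (J := J)
    (fun z hz hzS => stationary a b hp1 hf hmin hz hzS)
  have hpot : ∀ f', UFlow a b S s t f' → ∑ e, f' e * J e = φ s - φ t := by
    intro f' hf'
    have h1 : ∑ e, f' e * J e = ∑ e, f' e * (φ (a e) - φ (b e)) := by
      refine Finset.sum_congr rfl fun e _ => ?_
      by_cases he : e ∈ S
      · rw [hφ e he]
      · rw [hf'.2 e he, zero_mul, zero_mul]
    have hdemφ : ∀ u v : V, ∑ x, dem u v x * φ x = φ u - φ v := by
      intro u v
      unfold dem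
      simp only [sub_mul, Finset.sum_sub_distrib, ite_mul, one_mul, zero_mul, Finset.sum_ite_eq,
        Finset.mem_univ, if_true]
    have h2 : ∑ e, f' e * (φ (a e) - φ (b e)) = ∑ x, net a b f' x * φ x := by
      unfold net
      simp only [Finset.sum_mul]
      rw [Finset.sum_comm]
      refine Finset.sum_congr rfl fun e _ => ?_
      rw [← hdemφ, Finset.mul_sum]
      exact Finset.sum_congr rfl fun x _ => by ring
    rw [h1, h2]
    have h3 : ∑ x, net a b f' x * φ x = ∑ x, dem s t x * φ x :=
      Finset.sum_congr rfl fun x _ => by rw [hf'.1 x]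
    rw [h3, hdemφ]
  have hself : ∑ e, f e * J e = pc p w f := by
    unfold pc
    refine Finset.sum_congr rfl fun e _ => ?_
    have h1 : f e * J e = |f e / w e| ^ (p - 2) * (f e / w e) ^ 2 := by
      simp only [hJ]; ring
    rw [h1, ← sq_abs]
    by_cases h0 : |f e / w e| = 0
    · rw [h0, Real.zero_rpow (by linarith : p ≠ 0)]; simp
    · have hpos : 0 < |f e / w e| := lt_of_le_of_ne (abs_nonneg _) (Ne.symm h0)
      rw [← Real.rpow_natCast, ← Real.rpow_add hpos]
      congr 1; push_cast; ring
  refine ⟨f, J, hf, hmin, fun f' hf' => ?_, fun e he => ?_⟩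
  · rw [hpot f' hf', ← hpot f hf, hself]
  · have hwe := hw e he
    have h1 : |w e * J e| = |f e / w e| ^ (p - 1) := by
      have h2 : w e * J e = |f e / w e| ^ (p - 2) * (f e / w e) := by
        simp only [hJ]; field_simp
      rw [h2, abs_mul, abs_of_nonneg (Real.rpow_nonneg (abs_nonneg _) _)]
      by_cases h0 : |f e / w e| = 0
      · rw [h0, Real.zero_rpow (by linarith : p - 1 ≠ 0)]; simp
      · have hpos : 0 < |f e / w e| := lt_of_le_of_ne (abs_nonneg _) (Ne.symm h0)
        nth_rewrite 2 [← Real.rpow_one |f e / w e|]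
        rw [← Real.rpow_add hpos]
        congr 1; ring
    rw [h1, ← Real.rpow_mul (abs_nonneg _)]
    congr 1
    have := hpq.sub_one_mul_conj
    exact this

end Pool.Agent.Helper81.Flow
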