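import Mathlib

/-!
Signs for which finitely many linear forms are all of the expected size (Hoeffding).
-/

namespace Pool.Agent.Helper81.Flow

open Finset

/-- The sign of a Boolean. -/
def sg (b : Bool) : ℝ := if b then 1 else -1

theorem sg_or (b : Bool) : sg b = 1 ∨ sg b = -1 := by cases b <;> simp [sg]

theorem sg_not (b : Bool) : sg (!b) = - sg b := by cases b <;> simp [sg]

variable {I : Type*} [Fintype I] [DecidableEq I]

theorem sum_exp (x : I → ℝ) :
    ∑ η : I → Bool, Real.exp (∑ i, sg (η i) * x i) ≤ 2 ^ (Fintype.card I) *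
      Real.exp ((∑ i, x i ^ 2) / 2) := by
  have h1 : ∑ η : I → Bool, Real.exp (∑ i, sg (η i) * x i)
      = ∏ i, ∑ b : Bool, Real.exp (sg b * x i) := by
    rw [Finset.prod_univ_sum]
    simp only [Fintype.piFinset_univ]
    exact Finset.sum_congr rfl fun η _ => Real.exp_sum _ _
  have h2 : ∀ i, ∑ b : Bool, Real.exp (sg b * x i) ≤ 2 * Real.exp (x i ^ 2 / 2) := by
    intro i
    rw [Fintype.sum_bool]
    have h3 := Real.cosh_le_exp_half_sq (x i)
    rw [Real.cosh_eq] at h3
    simp only [sg, if_true, one_mul, Bool.false_eq_true, if_false, neg_mul]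
    linarith
  rw [h1]
  calc ∏ i, ∑ b : Bool, Real.exp (sg b * x i) ≤ ∏ i : I, (2 * Real.exp (x i ^ 2 / 2)) :=
        Finset.prod_le_prod (fun i _ => Finset.sum_nonneg fun b _ => (Real.exp_pos _).le)
          (fun i _ => h2 i)
    _ = 2 ^ (Fintype.card I) * Real.exp ((∑ i, x i ^ 2) / 2) := by
        rw [Finset.prod_mul_distrib, Finset.prod_const, Finset.card_univ, ← Real.exp_sum,
          Finset.sum_div]

/-- One-sided tail bound, counting version. -/
theorem tail (x : I → ℝ) {lam : ℝ} (hlam : 0 < lam) :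
    (((Finset.univ : Finset (I → Bool)).filter
      (fun η => lam * Real.sqrt (∑ i, x i ^ 2) < ∑ i, sg (η i) * x i)).card : ℝ)
      ≤ 2 ^ (Fintype.card I) * Real.exp (-(lam ^ 2) / 2) := by
  set σ := Real.sqrt (∑ i, x i ^ 2) with hσ
  have hsq : 0 ≤ ∑ i, x i ^ 2 := Finset.sum_nonneg fun i _ => sq_nonneg _
  have hσ2 : σ ^ 2 = ∑ i, x i ^ 2 := Real.sq_sqrt hsq
  rcases (Real.sqrt_nonneg (∑ i, x i ^ 2)).eq_or_lt with h0 | h0
  · -- all x are zero
    rw [← hσ] at h0
    have hx : ∀ i, x i = 0 := by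
      intro i
      have h1 : ∑ i, x i ^ 2 = 0 := by rw [← hσ2, ← h0]; ring
      have h2 := (Finset.sum_eq_zero_iff_of_nonneg (fun i _ => sq_nonneg (x i))).mp h1 i
        (Finset.mem_univ i)
      exact pow_eq_zero_iff (two_ne_zero) |>.mp h2
    have h3 : (Finset.univ : Finset (I → Bool)).filter
        (fun η => lam * σ < ∑ i, sg (η i) * x i) = ∅ := by
      apply Finset.filter_eq_empty_iff.mpr
      intro η _
      simp [hx, ← h0]
    rw [h3]
    simp only [Finset.card_empty, Nat.cast_zero]
    positivity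
  · rw [← hσ] at h0
    have h1 := sum_exp (fun i => lam / σ * x i)
    have h2 : (∑ i, (lam / σ * x i) ^ 2) = lam ^ 2 := by
      have : ∀ i, (lam / σ * x i) ^ 2 = (lam / σ) ^ 2 * x i ^ 2 := fun i => by ring
      rw [Finset.sum_congr rfl (fun i _ => this i), ← Finset.mul_sum, ← hσ2]
      field_simp
    rw [h2] at h1
    set F := (Finset.univ : Finset (I → Bool)).filter
      (fun η => lam * σ < ∑ i, sg (η i) * x i) with hF
    have h3 : (F.card : ℝ) * Real.exp (lam ^ 2)
        ≤ ∑ η : I → Bool, Real.exp (∑ i, sg (η i) * (lam / σ * x i)) := by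
      calc (F.card : ℝ) * Real.exp (lam ^ 2) = ∑ η ∈ F, Real.exp (lam ^ 2) := by
            rw [Finset.sum_const, nsmul_eq_mul]
        _ ≤ ∑ η ∈ F, Real.exp (∑ i, sg (η i) * (lam / σ * x i)) := by
            apply Finset.sum_le_sum
            intro η hη
            apply Real.exp_le_exp.mpr
            have h4 := (Finset.mem_filter.mp hη).2
            have h5 : ∑ i, sg (η i) * (lam / σ * x i) = lam / σ * ∑ i, sg (η i) * x i := by
              rw [Finset.mul_sum]
              exact Finset.sum_congr rfl fun i _ => by ring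
            rw [h5]
            have h6 : lam / σ * (lam * σ) = lam ^ 2 := by field_simp
            rw [← h6]
            exact (mul_le_mul_of_nonneg_left h4.le (div_pos hlam h0).le)
        _ ≤ _ := Finset.sum_le_sum_of_subset_of_nonneg (Finset.filter_subset _ _)
            (fun _ _ _ => (Real.exp_pos _).le)
    have h7 : (F.card : ℝ) * Real.exp (lam ^ 2)
        ≤ 2 ^ (Fintype.card I) * Real.exp (lam ^ 2 / 2) := h3.trans h1
    have h8 : Real.exp (lam ^ 2 / 2) = Real.exp (-(lam ^ 2) / 2) * Real.exp (lam ^ 2) := by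
      rw [← Real.exp_add]; congr 1; ring
    rw [h8, ← mul_assoc] at h7
    exact le_of_mul_le_mul_right h7 (Real.exp_pos _)

/-- Signs that are good for all linear forms. -/
theorem exists_signs {J : Type*} [Fintype J] (x : J → I → ℝ) {lam : ℝ} (hlam : 0 < lam)
    (h : 2 * (Fintype.card J : ℝ) * Real.exp (-(lam ^ 2) / 2) < 1) :
    ∃ η : I → Bool, ∀ j, |∑ i, sg (η i) * x j i| ≤ lam * Real.sqrt (∑ i, x j i ^ 2) := by
  classical
  by_contra hcon
  push Not at hcon
  let F : J → Finset (I → Bool) := fun j => (Finset.univ : Finset (I → Bool)).filter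
      (fun η => lam * Real.sqrt (∑ i, x j i ^ 2) < ∑ i, sg (η i) * x j i)
  let F' : J → Finset (I → Bool) := fun j => (Finset.univ : Finset (I → Bool)).filter
      (fun η => lam * Real.sqrt (∑ i, (- x j i) ^ 2) < ∑ i, sg (η i) * (- x j i))
  have hcov : (Finset.univ : Finset (I → Bool)) ⊆ Finset.univ.biUnion (fun j => F j ∪ F' j) := by
    intro η _
    obtain ⟨j, hj⟩ := hcon η
    rw [Finset.mem_biUnion]
    refine ⟨j, Finset.mem_univ j, ?_⟩
    rw [Finset.mem_union]
    rcases lt_abs.mp hj with h1 | h1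
    · exact Or.inl (Finset.mem_filter.mpr ⟨Finset.mem_univ _, h1⟩)
    · refine Or.inr (Finset.mem_filter.mpr ⟨Finset.mem_univ _, ?_⟩)
      have h2 : ∑ i, sg (η i) * (- x j i) = - ∑ i, sg (η i) * x j i := by
        rw [← Finset.sum_neg_distrib]
        exact Finset.sum_congr rfl fun i _ => by ring
      rw [h2]
      simpa using h1
  have h1 : ((Finset.univ : Finset (I → Bool)).card : ℝ) ≤ ∑ j, (((F j).card : ℝ) + (F' j).card) := by
    have h2 : (Finset.univ : Finset (I → Bool)).card ≤ ∑ j, ((F j).card + (F' j).card) := by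
      refine (Finset.card_le_card hcov).trans ?_
      refine Finset.card_biUnion_le.trans ?_
      exact Finset.sum_le_sum fun j _ => Finset.card_union_le _ _
    exact_mod_cast h2
  have h3 : ∀ j, ((F j).card : ℝ) + (F' j).card
      ≤ 2 * (2 ^ (Fintype.card I) * Real.exp (-(lam ^ 2) / 2)) := by
    intro j
    have := tail (x j) hlam
    have := tail (fun i => - x j i) hlam
    linarith
  have h4 : ((Finset.univ : Finset (I → Bool)).card : ℝ) = 2 ^ (Fintype.card I) := by
    rw [Finset.card_univ]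
    simp
  rw [h4] at h1
  have h5 : ∑ j, (((F j).card : ℝ) + (F' j).card)
      ≤ (Fintype.card J : ℝ) * (2 * (2 ^ (Fintype.card I) * Real.exp (-(lam ^ 2) / 2))) := by
    calc ∑ j, (((F j).card : ℝ) + (F' j).card)
        ≤ ∑ _j : J, 2 * (2 ^ (Fintype.card I) * Real.exp (-(lam ^ 2) / 2)) :=
          Finset.sum_le_sum fun j _ => h3 j
      _ = _ := by rw [Finset.sum_const, Finset.card_univ, nsmul_eq_mul]
  have h6 : (0:ℝ) < 2 ^ (Fintype.card I) := by positivity
  have h7 : (Fintype.card J : ℝ) * (2 * (2 ^ (Fintype.card I) * Real.exp (-(lam ^ 2) / 2)))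
      = 2 ^ (Fintype.card I) * (2 * (Fintype.card J : ℝ) * Real.exp (-(lam ^ 2) / 2)) := by ring
  rw [h7] at h5
  have h8 := mul_lt_mul_of_pos_left h h6
  linarith

end Pool.Agent.Helper81.Flow
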