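import Mathlib
import Pool.Agent.Helper81.Flow.Duality
import Pool.Agent.Helper81.Flow.Signs

/-!
One round of sparsification: half of the edges outside a bundle are removed, the others get their
weight multiplied by `2^(1/q)`.
-/

namespace Pool.Agent.Helper81.Flow

open Finset

variable {V E : Type*} [Fintype V] [DecidableEq V] [Fintype E] [DecidableEq E] (a b : E → V)

/-- The cost of a flow. -/
noncomputable def cost (p : ℝ) (w f : E → ℝ) : ℝ := (pc p w f) ^ (1 / p)

omit [DecidableEq E] in
theorem cost_nonneg (p : ℝ) (w f : E → ℝ) : 0 ≤ cost p w f := Real.rpow_nonneg (pc_nonneg _ _ _) _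

omit [DecidableEq E] in
theorem cost_add_le {p : ℝ} (hp : 1 ≤ p) (w f g : E → ℝ) :
    cost p w (fun e => f e + g e) ≤ cost p w f + cost p w g := by
  unfold cost pc
  have h := Real.Lp_add_le (Finset.univ : Finset E) (fun e => f e / w e) (fun e => g e / w e) hp
  have h2 : ∑ e, |(f e + g e) / w e| ^ p = ∑ e, |f e / w e + g e / w e| ^ p :=
    Finset.sum_congr rfl fun e _ => by rw [add_div]
  rw [h2]
  exact h

/-- `1 ≤ (1 - ξ)^(1/p) + τ ξ^(1/p)` forces `ξ ≤ 4 τ²`. -/
theorem small_energy {p q : ℝ} (hpq : p.HolderConjugate q) (hp2 : p ≤ 2) {R x τ : ℝ}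
    (hx : 0 ≤ x) (hxR : x ≤ R) (hτ0 : 0 ≤ τ) (hτ : 2 * τ ≤ 1)
    (h : R ^ (1 / p) ≤ (R - x) ^ (1 / p) + τ * x ^ (1 / p)) : x ≤ 4 * τ ^ 2 * R := by
  have hp1 : 1 < p := hpq.lt
  have hp0 : 0 < p := by linarith
  have hq2 : 2 ≤ q := by
    have h1 := hpq.symm.lt
    have h2 := hpq.mul_eq_add
    nlinarith
  rcases hx.eq_or_lt with h0 | h0
  · rw [← h0]; have : 0 ≤ R := hx.trans hxR; positivity
  have hR : 0 < R := lt_of_lt_of_le h0 hxR
  set ξ := x / R with hξ
  have hξ0 : 0 < ξ := div_pos h0 hR
  have hξ1 : ξ ≤ 1 := (div_le_one hR).mpr hxR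
  have hxe : x = ξ * R := by rw [hξ]; field_simp
  have h1 : 1 ≤ (1 - ξ) ^ (1 / p) + τ * ξ ^ (1 / p) := by
    have e1 : R - x = (1 - ξ) * R := by linarith [hxe]
    have e2 : x ^ (1 / p) = ξ ^ (1 / p) * R ^ (1 / p) := by
      rw [← Real.mul_rpow hξ0.le hR.le, ← hxe]
    rw [e1, e2, Real.mul_rpow (by linarith) hR.le] at h
    have hRp : 0 < R ^ (1 / p) := Real.rpow_pos_of_pos hR _
    have h2 : 1 * R ^ (1 / p) ≤ ((1 - ξ) ^ (1 / p) + τ * ξ ^ (1 / p)) * R ^ (1 / p) := by
      rw [one_mul]; linarith
    exact le_of_mul_le_mul_right h2 hRp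
  have h2 : (1 - ξ) ^ (1 / p) ≤ 1 - ξ / p := by
    have h3 := rpow_one_add_le_one_add_mul_self (s := -ξ) (by linarith) (p := 1 / p)
      (by positivity) (by rw [div_le_one hp0]; linarith)
    have h4 : 1 + 1 / p * -ξ = 1 - ξ / p := by ring
    rw [h4] at h3
    exact h3
  have h3 : ξ / p ≤ τ * ξ ^ (1 / p) := by linarith
  have h4 : ξ ≤ 2 * τ * ξ ^ (1 / p) := by
    have h5 : ξ = p * (ξ / p) := by field_simp
    have h6 : p * (ξ / p) ≤ 2 * (τ * ξ ^ (1 / p)) := by
      have h7 : 0 ≤ ξ / p := by positivity
      nlinarith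
    linarith
  have h5 : ξ ^ (1 / q) ≤ 2 * τ := by
    have h6 : ξ = ξ ^ (1 / q) * ξ ^ (1 / p) := by
      rw [← Real.rpow_add hξ0]
      have : 1 / q + 1 / p = 1 := by
        have := hpq.inv_add_inv_eq_one
        rw [one_div, one_div]; linarith
      rw [this, Real.rpow_one]
    have h7 : 0 < ξ ^ (1 / p) := Real.rpow_pos_of_pos hξ0 _
    rw [h6] at h4
    nth_rewrite 2 [← h6] at h4
    exact le_of_mul_le_mul_right h4 h7
  have hq0 : 0 < q := by linarith
  have h6 : ξ ≤ (2 * τ) ^ q := by
    have h7 := Real.rpow_le_rpow (Real.rpow_nonneg hξ0.le _) h5 hq0.le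
    rwa [← Real.rpow_mul hξ0.le, one_div_mul_cancel hq0.ne', Real.rpow_one] at h7
  have h7 : (2 * τ) ^ q ≤ (2 * τ) ^ 2 := by
    rcases (show 0 ≤ 2 * τ by linarith).eq_or_lt with h8 | h8
    · rw [← h8, Real.zero_rpow hq0.ne']; norm_num
    · rw [← Real.rpow_natCast]
      exact Real.rpow_le_rpow_of_exponent_ge h8 hτ (by push_cast; exact hq2)
  calc x = ξ * R := hxe
    _ ≤ (2 * τ) ^ 2 * R := mul_le_mul_of_nonneg_right (h6.trans h7) hR.le
    _ = 4 * τ ^ 2 * R := by ring

/-- The pair `(S', w')` approximates `(S, w)`: costs of optimal flows change by a factor in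
`[β, α]`. -/
def Approx (p : ℝ) (S : Finset E) (w : E → ℝ) (S' : Finset E) (w' : E → ℝ) (α β : ℝ) : Prop :=
  (∀ s t f, UFlow a b S s t f → ∃ f', UFlow a b S' s t f' ∧ cost p w' f' ≤ α * cost p w f) ∧
  ∀ s t f', UFlow a b S' s t f' → ∃ f, UFlow a b S s t f ∧ β * cost p w f ≤ cost p w' f'

set_option maxHeartbeats 1600000 in
theorem round {p q : ℝ} (hpq : p.HolderConjugate q) (hp2 : p ≤ 2) {S B : Finset E} (hBS : B ⊆ S)
    {w : E → ℝ} (hw : ∀ e ∈ S, 0 < w e) {τ : ℝ} (hτ0 : 0 ≤ τ) (hτ : 2 * τ ≤ 1)
    (hB : ∀ e ∈ S \ B, ∃ g : E → ℝ, (∀ x, net a b g x = dem (a e) (b e) x) ∧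
      (∀ e', e' ∉ B → g e' = 0) ∧ pc p w g ≤ (τ / w e) ^ p)
    {lam : ℝ} (hlam : 0 < lam)
    (hJ : 2 * ((Fintype.card V : ℝ) * (Fintype.card V * (Fintype.card E + 1)))
      * Real.exp (-(lam ^ 2) / 2) < 1) :
    ∃ S' ⊆ S, ∃ w' : E → ℝ, (∀ e ∈ S', 0 < w' e) ∧ 2 * S'.card ≤ B.card + S.card ∧
      Approx a b p S w S' w' (1 + 3 * (lam * τ)) (1 - 2 * (lam * τ)) := by
  classical
  have hp1 : 1 < p := hpq.lt
  have hp0 : 0 < p := by linarith
  have hq0 : 0 < q := by linarith [hpq.symm.lt]
  choose! g hgnet hgsupp hgcost using hB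
  -- optimal flows
  have hopt : ∀ st : V × V, ∃ f J : E → ℝ, (∃ f0, UFlow a b S st.1 st.2 f0) →
      (UFlow a b S st.1 st.2 f ∧ (∀ f', UFlow a b S st.1 st.2 f' → pc p w f ≤ pc p w f') ∧
      (∀ f', UFlow a b S st.1 st.2 f' → ∑ e, f' e * J e = pc p w f) ∧
      ∀ e ∈ S, |w e * J e| ^ q = |f e / w e| ^ p) := by
    intro st
    by_cases h : ∃ f0, UFlow a b S st.1 st.2 f0
    · obtain ⟨f0, hf0⟩ := h
      obtain ⟨f, J, h1, h2, h3, h4⟩ := duality a b hpq hw hf0
      exact ⟨f, J, fun _ => ⟨h1, h2, h3, h4⟩⟩
    · exact ⟨fun _ => 0, fun _ => 0, fun h' => absurd h' h⟩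
  choose F J hFJ using hopt
  -- the linear forms
  let X : V × V × Option E → E → ℝ := fun j e =>
    if e ∈ S \ B then
      (match j.2.2 with
        | none => |F (j.1, j.2.1) e / w e| ^ p
        | some e' => F (j.1, j.2.1) e * g e e')
    else 0
  have hcardJ : (Fintype.card (V × V × Option E) : ℝ)
      = (Fintype.card V : ℝ) * (Fintype.card V * (Fintype.card E + 1)) := by
    rw [Fintype.card_prod, Fintype.card_prod, Fintype.card_option]
    push_cast; ring
  obtain ⟨η₀, hη₀⟩ := exists_signs X hlam (by rw [hcardJ]; exact hJ)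
  -- choose the sign with few survivors
  obtain ⟨η, hη, hηcard⟩ : ∃ η : E → Bool,
      (∀ j, |∑ e, sg (η e) * X j e| ≤ lam * Real.sqrt (∑ e, X j e ^ 2)) ∧
      2 * ((S \ B).filter (fun e => η e = true)).card ≤ (S \ B).card := by
    have hsplit := Finset.card_filter_add_card_filter_not (s := S \ B) (fun e => η₀ e = true)
    by_cases h : 2 * ((S \ B).filter (fun e => η₀ e = true)).card ≤ (S \ B).card
    · exact ⟨η₀, hη₀, h⟩
    · refine ⟨fun e => !(η₀ e), fun j => ?_, ?_⟩
      · have h1 : ∑ e, sg (!(η₀ e)) * X j e = - ∑ e, sg (η₀ e) * X j e := by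
          rw [← Finset.sum_neg_distrib]
          exact Finset.sum_congr rfl fun e _ => by rw [sg_not]; ring
        rw [h1, abs_neg]
        exact hη₀ j
      · have h2 : (S \ B).filter (fun e => (!(η₀ e)) = true)
            = (S \ B).filter (fun e => ¬ η₀ e = true) := by
          apply Finset.filter_congr
          intro e _
          simp
        rw [h2]
        omega
  set E1 := S \ B with hE1
  set S' : Finset E := B ∪ E1.filter (fun e => η e = true) with hS'
  set w' : E → ℝ := fun e => if e ∈ E1 then 2 ^ (1 / q) * w e else w e with hw'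
  have h2q : (0:ℝ) < 2 ^ (1 / q) := Real.rpow_pos_of_pos (by norm_num) _
  have hS'S : S' ⊆ S := by
    apply Finset.union_subset hBS
    exact (Finset.filter_subset _ _).trans Finset.sdiff_subset
  have hE1S : ∀ e ∈ E1, e ∈ S := fun e he => (Finset.mem_sdiff.mp he).1
  have hE1B : ∀ e ∈ E1, e ∉ B := fun e he => (Finset.mem_sdiff.mp he).2
  have hB1 : ∀ e ∈ B, e ∉ E1 := fun e he h => hE1B e h he
  -- energies
  have key : ∀ st : V × V, (∃ f0, UFlow a b S st.1 st.2 f0) →
      (|∑ e, sg (η e) * (if e ∈ E1 then |F st e / w e| ^ p else 0)|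
        ≤ 2 * (lam * τ) * pc p w (F st)) ∧
      (pc p w (fun e' => ∑ e, sg (η e) * (if e ∈ E1 then F st e * g e e' else 0))
        ≤ (lam * τ) ^ p * pc p w (F st)) := by
    intro st hst
    obtain ⟨hF1, hF2, hF3, hF4⟩ := hFJ st hst
    set R := pc p w (F st) with hR
    have hR0 : 0 ≤ R := pc_nonneg _ _ _
    have hxnn : ∀ e, 0 ≤ |F st e / w e| ^ p := fun e => Real.rpow_nonneg (abs_nonneg _) _
    have hxR : ∀ e, |F st e / w e| ^ p ≤ R := fun e =>
      Finset.single_le_sum (f := fun e => |F st e / w e| ^ p) (fun e _ => hxnn e)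
        (Finset.mem_univ e)
    -- each energy outside the bundle is small
    have hsmall : ∀ e ∈ E1, |F st e / w e| ^ p ≤ 4 * τ ^ 2 * R := by
      intro e he
      have hwe := hw e (hE1S e he)
      refine small_energy hpq hp2 (hxnn e) (hxR e) hτ0 hτ ?_
      -- compare with the rerouted flow
      set f1 : E → ℝ := fun e' => F st e' - (if e' = e then F st e else 0) with hf1
      set f2 : E → ℝ := fun e' => F st e * g e e' with hf2
      have hu : UFlow a b S st.1 st.2 (fun e' => f1 e' + f2 e') := by
        refine ⟨fun x => ?_, fun e' he' => ?_⟩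
        · rw [net_add, hf1, net_sub, net_single, hf2, net_smul, hgnet e he, hF1.1]
          ring
        · have h1 : e' ≠ e := fun h => he' (h ▸ hE1S e he)
          have h2 : e' ∉ B := fun h => he' (hBS h)
          simp only [hf1, hf2, h1, if_false, hF1.2 e' he', hgsupp e he e' h2]
          ring
      have h1 := hF2 _ hu
      have h2 : R ^ (1 / p) ≤ cost p w (fun e' => f1 e' + f2 e') :=
        Real.rpow_le_rpow hR0 h1 (by positivity)
      have h3 := cost_add_le hp1.le w f1 f2
      have h4 : pc p w f1 = R - |F st e / w e| ^ p := by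
        have h5 : ∀ e', |f1 e' / w e'| ^ p
            = |F st e' / w e'| ^ p - (if e' = e then |F st e / w e| ^ p else 0) := by
          intro e'
          by_cases h : e' = e
          · subst h
            simp [hf1, Real.zero_rpow hp0.ne']
          · simp [hf1, h]
        unfold pc
        rw [Finset.sum_congr rfl (fun e' _ => h5 e'), Finset.sum_sub_distrib,
          Finset.sum_ite_eq' , if_pos (Finset.mem_univ e)]
        rfl
      have h5 : cost p w f2 ≤ τ * (|F st e / w e| ^ p) ^ (1 / p) := by
        have h6 : pc p w f2 = |F st e| ^ p * pc p w (g e) := by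
          unfold pc
          rw [Finset.mul_sum]
          refine Finset.sum_congr rfl fun e' _ => ?_
          rw [hf2, mul_div_assoc, abs_mul, Real.mul_rpow (abs_nonneg _) (abs_nonneg _)]
        have h7 : pc p w f2 ≤ (|F st e| * (τ / w e)) ^ p := by
          rw [h6, Real.mul_rpow (abs_nonneg _) (by positivity)]
          exact mul_le_mul_of_nonneg_left (hgcost e he) (Real.rpow_nonneg (abs_nonneg _) _)
        have h8 : cost p w f2 ≤ |F st e| * (τ / w e) := by
          have h9 := Real.rpow_le_rpow (pc_nonneg _ _ _) h7 (show 0 ≤ 1 / p by positivity)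
          rwa [← Real.rpow_mul (by positivity), mul_one_div_cancel hp0.ne', Real.rpow_one] at h9
        have h9 : (|F st e / w e| ^ p) ^ (1 / p) = |F st e| / w e := by
          rw [← Real.rpow_mul (abs_nonneg _), mul_one_div_cancel hp0.ne', Real.rpow_one, abs_div,
            abs_of_pos hwe]
        rw [h9]
        calc cost p w f2 ≤ |F st e| * (τ / w e) := h8
          _ = τ * (|F st e| / w e) := by ring
      calc R ^ (1 / p) ≤ cost p w f1 + cost p w f2 := h2.trans h3
        _ ≤ _ := by
          have h10 : cost p w f1 = (R - |F st e / w e| ^ p) ^ (1 / p) := by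
            unfold cost; rw [h4]
          rw [h10]
          linarith
    refine ⟨?_, ?_⟩
    · -- the energy form
      have h1 := hη (st.1, st.2, none)
      have h2 : ∀ e, X (st.1, st.2, none) e = (if e ∈ E1 then |F st e / w e| ^ p else 0) := by
        intro e; rfl
      simp only [h2] at h1
      refine h1.trans ?_
      have h3 : ∑ e, (if e ∈ E1 then |F st e / w e| ^ p else 0) ^ 2 ≤ (2 * τ * R) ^ 2 := by
        calc ∑ e, (if e ∈ E1 then |F st e / w e| ^ p else 0) ^ 2
            ≤ ∑ e, (4 * τ ^ 2 * R) * |F st e / w e| ^ p := by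
              apply Finset.sum_le_sum
              intro e _
              by_cases he : e ∈ E1
              · rw [if_pos he, sq]
                exact mul_le_mul_of_nonneg_right (hsmall e he) (hxnn e)
              · rw [if_neg he, zero_pow two_ne_zero]
                exact mul_nonneg (by positivity) (hxnn e)
          _ = (4 * τ ^ 2 * R) * R := by rw [← Finset.mul_sum]; rfl
          _ = (2 * τ * R) ^ 2 := by ring
      have h4 : Real.sqrt (∑ e, (if e ∈ E1 then |F st e / w e| ^ p else 0) ^ 2) ≤ 2 * τ * R := by
        rw [Real.sqrt_le_left (by positivity)]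
        exact h3
      calc lam * Real.sqrt _ ≤ lam * (2 * τ * R) := mul_le_mul_of_nonneg_left h4 hlam.le
        _ = 2 * (lam * τ) * R := by ring
    · -- the correction flow
      have h1 : ∀ e', |(∑ e, sg (η e) * (if e ∈ E1 then F st e * g e e' else 0)) / w e'| ^ p
          ≤ ∑ e, lam ^ p * (if e ∈ E1 then |F st e| ^ p * |g e e' / w e'| ^ p else 0) := by
        intro e'
        have h2 := hη (st.1, st.2, some e')
        have h3 : ∀ e, X (st.1, st.2, some e') e = (if e ∈ E1 then F st e * g e e' else 0) := by
          intro e; rfl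
        simp only [h3] at h2
        rw [abs_div, Real.div_rpow (abs_nonneg _) (abs_nonneg _)]
        have h4 : |∑ e, sg (η e) * (if e ∈ E1 then F st e * g e e' else 0)| ^ p
            ≤ lam ^ p * ∑ e, (if e ∈ E1 then |F st e| ^ p * |g e e'| ^ p else 0) := by
          have h5 := Real.rpow_le_rpow (abs_nonneg _) h2 hp0.le
          rw [Real.mul_rpow hlam.le (Real.sqrt_nonneg _)] at h5
          refine h5.trans (mul_le_mul_of_nonneg_left ?_ (Real.rpow_nonneg hlam.le _))
          rw [Real.sqrt_eq_rpow, ← Real.rpow_mul (Finset.sum_nonneg fun e _ => sq_nonneg _)]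
          refine (rpow_sum_le (by positivity) (by linarith) _ _ (fun e => sq_nonneg _)).trans ?_
          apply le_of_eq
          refine Finset.sum_congr rfl fun e _ => ?_
          by_cases he : e ∈ E1
          · rw [if_pos he, if_pos he, ← sq_abs, ← Real.rpow_natCast, ← Real.rpow_mul (abs_nonneg _),
              show ((2:ℕ):ℝ) * (1 / 2 * p) = p by push_cast; ring, abs_mul,
              Real.mul_rpow (abs_nonneg _) (abs_nonneg _)]
          · rw [if_neg he, if_neg he]
            rw [zero_pow two_ne_zero, Real.zero_rpow (by positivity)]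
        calc _ ≤ (lam ^ p * ∑ e, (if e ∈ E1 then |F st e| ^ p * |g e e'| ^ p else 0)) / |w e'| ^ p :=
              div_le_div_of_nonneg_right h4 (Real.rpow_nonneg (abs_nonneg _) _)
          _ = _ := by
              rw [mul_div_assoc, Finset.sum_div, Finset.mul_sum]
              refine Finset.sum_congr rfl fun e _ => ?_
              by_cases he : e ∈ E1
              · rw [if_pos he, if_pos he, abs_div, Real.div_rpow (abs_nonneg _) (abs_nonneg _)]
                ring
              · rw [if_neg he, if_neg he, zero_div]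
      calc pc p w (fun e' => ∑ e, sg (η e) * (if e ∈ E1 then F st e * g e e' else 0))
          ≤ ∑ e', ∑ e, lam ^ p * (if e ∈ E1 then |F st e| ^ p * |g e e' / w e'| ^ p else 0) :=
            Finset.sum_le_sum fun e' _ => h1 e'
        _ = ∑ e, lam ^ p * (if e ∈ E1 then |F st e| ^ p * pc p w (g e) else 0) := by
            rw [Finset.sum_comm]
            refine Finset.sum_congr rfl fun e _ => ?_
            rw [← Finset.mul_sum]
            by_cases he : e ∈ E1
            · simp only [if_pos he]
              rw [← Finset.mul_sum]; rfl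
            · simp only [if_neg he, Finset.sum_const_zero]
        _ ≤ ∑ e, lam ^ p * (τ ^ p * |F st e / w e| ^ p) := by
            apply Finset.sum_le_sum
            intro e _
            apply mul_le_mul_of_nonneg_left _ (Real.rpow_nonneg hlam.le _)
            by_cases he : e ∈ E1
            · rw [if_pos he]
              have hwe := hw e (hE1S e he)
              calc |F st e| ^ p * pc p w (g e) ≤ |F st e| ^ p * (τ / w e) ^ p :=
                    mul_le_mul_of_nonneg_left (hgcost e he) (Real.rpow_nonneg (abs_nonneg _) _)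
                _ = τ ^ p * |F st e / w e| ^ p := by
                    rw [Real.div_rpow hτ0 hwe.le, abs_div, abs_of_pos hwe,
                      Real.div_rpow (abs_nonneg _) hwe.le]
                    ring
            · rw [if_neg he]
              exact mul_nonneg (Real.rpow_nonneg hτ0 _) (hxnn e)
        _ = (lam * τ) ^ p * R := by
            rw [Real.mul_rpow hlam.le hτ0, mul_assoc, hR]
            unfold pc
            rw [Finset.mul_sum, Finset.mul_sum]
  have hlt : 0 ≤ lam * τ := mul_nonneg hlam.le hτ0
  refine ⟨S', hS'S, w', ?_, ?_, ?_, ?_⟩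
  · intro e he
    have hwe := hw e (hS'S he)
    simp only [hw']
    split_ifs
    · positivity
    · exact hwe
  · have h1 : S'.card ≤ B.card + (E1.filter (fun e => η e = true)).card := Finset.card_union_le _ _
    have h2 : E1.card = S.card - B.card := Finset.card_sdiff_of_subset hBS
    have h3 : B.card ≤ S.card := Finset.card_le_card hBS
    omega
  · -- flows of G give flows of G'
    intro s t f hf
    have hst : ∃ f0, UFlow a b S (s, t).1 (s, t).2 f0 := ⟨f, hf⟩
    obtain ⟨hF1, hF2, hF3, hF4⟩ := hFJ (s, t) hst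
    obtain ⟨hk1, hk2⟩ := key (s, t) hst
    set R := pc p w (F (s, t)) with hR
    have hR0 : 0 ≤ R := pc_nonneg _ _ _
    set f0 := F (s, t) with hf0
    set h : E → ℝ := fun e' => ∑ e, sg (η e) * (if e ∈ E1 then f0 e * g e e' else 0) with hh
    set f1 : E → ℝ := fun e => if e ∈ E1 then (1 + sg (η e)) * f0 e else f0 e with hf1
    have hhnet : ∀ x, net a b h x
        = ∑ e, sg (η e) * (if e ∈ E1 then f0 e * dem (a e) (b e) x else 0) := by
      intro x
      rw [hh, net_sum a b Finset.univ
        (fun e e' => sg (η e) * (if e ∈ E1 then f0 e * g e e' else 0)) x]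
      refine Finset.sum_congr rfl fun e _ => ?_
      rw [net_smul a b (sg (η e)) (fun e' => if e ∈ E1 then f0 e * g e e' else 0) x]
      congr 1
      by_cases he : e ∈ E1
      · simp only [if_pos he]
        rw [net_smul, hgnet e he]
      · simp only [if_neg he]
        simp [net]
    have hhB : ∀ e', e' ∉ B → h e' = 0 := by
      intro e' he'
      show ∑ e, sg (η e) * (if e ∈ E1 then f0 e * g e e' else 0) = 0
      apply Finset.sum_eq_zero
      intro e _
      by_cases he : e ∈ E1
      · rw [if_pos he, hgsupp e he e' he']; ring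
      · rw [if_neg he, mul_zero]
    refine ⟨fun e => f1 e + (-1) * h e, ⟨fun x => ?_, fun e he => ?_⟩, ?_⟩
    · rw [net_add, net_smul, hhnet]
      have h1 : net a b f1 x = net a b f0 x
          + ∑ e, sg (η e) * (if e ∈ E1 then f0 e * dem (a e) (b e) x else 0) := by
        unfold net
        rw [← Finset.sum_add_distrib]
        refine Finset.sum_congr rfl fun e _ => ?_
        by_cases he : e ∈ E1
        · simp only [hf1, if_pos he]; ring
        · simp only [hf1, if_neg he]; ring
      rw [h1, hF1.1]
      ring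
    · have heB : e ∉ B := fun h' => he (Finset.mem_union_left _ h')
      show f1 e + (-1) * h e = 0
      rw [hhB e heB, mul_zero, add_zero]
      by_cases he1 : e ∈ E1
      · have h2 : η e = false := by
          by_contra hcon
          exact he (Finset.mem_union_right _ (Finset.mem_filter.mpr ⟨he1, by simpa using hcon⟩))
        simp only [hf1, if_pos he1, h2, sg]
        norm_num
      · have h2 : e ∉ S := fun h' => he1 (Finset.mem_sdiff.mpr ⟨h', heB⟩)
        simp only [hf1, if_neg he1]
        exact hF1.2 e h2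
    · -- cost
      have h1 := cost_add_le hp1.le w' f1 (fun e => (-1) * h e)
      have h2 : pc p w' f1 ≤ R * (1 + 2 * (lam * τ)) := by
        have h3 : ∀ e, |f1 e / w' e| ^ p = |f0 e / w e| ^ p
            + sg (η e) * (if e ∈ E1 then |f0 e / w e| ^ p else 0) := by
          intro e
          by_cases he : e ∈ E1
          · simp only [hf1, hw', if_pos he]
            rcases hb : η e with _ | _
            · simp [sg, Real.zero_rpow hp0.ne']
            · simp only [sg, if_true, one_mul]
              have h4 : (1 + 1) * f0 e / (2 ^ (1 / q) * w e) = (2 / 2 ^ (1 / q)) * (f0 e / w e) := by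
                have hwe := hw e (hE1S e he)
                field_simp
                ring
              rw [h4, abs_mul, Real.mul_rpow (abs_nonneg _) (abs_nonneg _),
                abs_of_pos (div_pos two_pos h2q)]
              have h5 : ((2:ℝ) / 2 ^ (1 / q)) ^ p = 2 := by
                have h6 : (2:ℝ) / 2 ^ (1 / q) = 2 ^ (1 / p) := by
                  rw [div_eq_iff h2q.ne', ← Real.rpow_add two_pos]
                  have h7 : 1 / p + 1 / q = 1 := by
                    have := hpq.inv_add_inv_eq_one
                    rw [one_div, one_div]; exact this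
                  rw [h7, Real.rpow_one]
                rw [h6, ← Real.rpow_mul (by norm_num), one_div_mul_cancel hp0.ne', Real.rpow_one]
              rw [h5]; ring
          · simp only [hf1, hw', if_neg he]; ring
        have h4 : pc p w' f1 = R + ∑ e, sg (η e) * (if e ∈ E1 then |f0 e / w e| ^ p else 0) := by
          rw [hR]
          unfold pc
          rw [← Finset.sum_add_distrib]
          exact Finset.sum_congr rfl fun e _ => h3 e
        rw [h4]
        have h5 := (abs_le.mp hk1).2
        linarith
      have h3 : pc p w' (fun e => (-1) * h e) ≤ (lam * τ) ^ p * R := by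
        have h4 : pc p w' (fun e => (-1) * h e) = pc p w h := by
          unfold pc
          refine Finset.sum_congr rfl fun e _ => ?_
          by_cases he : e ∈ B
          · have h5 : w' e = w e := by simp only [hw', if_neg (hB1 e he)]
            show |(-1) * h e / w' e| ^ p = |h e / w e| ^ p
            rw [h5, neg_one_mul, neg_div, abs_neg]
          · show |(-1) * h e / w' e| ^ p = |h e / w e| ^ p
            rw [hhB e he]; simp
        rw [h4]
        exact hk2
      have h4 : cost p w' f1 ≤ (1 + 2 * (lam * τ)) * R ^ (1 / p) := by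
        have h5 := Real.rpow_le_rpow (pc_nonneg _ _ _) h2 (show 0 ≤ 1 / p by positivity)
        refine h5.trans ?_
        rw [Real.mul_rpow hR0 (by linarith), mul_comm]
        apply mul_le_mul_of_nonneg_right _ (Real.rpow_nonneg hR0 _)
        calc (1 + 2 * (lam * τ)) ^ (1 / p) ≤ (1 + 2 * (lam * τ)) ^ (1:ℝ) :=
              Real.rpow_le_rpow_of_exponent_le (by linarith) (by rw [div_le_one hp0]; linarith)
          _ = _ := Real.rpow_one _
      have h5 : cost p w' (fun e => (-1) * h e) ≤ (lam * τ) * R ^ (1 / p) := by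
        have h6 := Real.rpow_le_rpow (pc_nonneg _ _ _) h3 (show 0 ≤ 1 / p by positivity)
        refine h6.trans (le_of_eq ?_)
        rw [Real.mul_rpow (Real.rpow_nonneg hlt _) hR0, ← Real.rpow_mul hlt,
          mul_one_div_cancel hp0.ne', Real.rpow_one]
      have h6 : R ^ (1 / p) ≤ cost p w f := Real.rpow_le_rpow hR0 (hF2 f hf) (by positivity)
      calc cost p w' (fun e => f1 e + (-1) * h e)
          ≤ (1 + 2 * (lam * τ)) * R ^ (1 / p) + (lam * τ) * R ^ (1 / p) := by linarith
        _ = (1 + 3 * (lam * τ)) * R ^ (1 / p) := by ring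
        _ ≤ _ := mul_le_mul_of_nonneg_left h6 (by linarith)
  · -- flows of G' cost at least as much as the optimum of G
    intro s t f' hf'
    have hf'S : UFlow a b S s t f' := ⟨hf'.1, fun e he => hf'.2 e (fun h => he (hS'S h))⟩
    have hst : ∃ f0, UFlow a b S (s, t).1 (s, t).2 f0 := ⟨f', hf'S⟩
    obtain ⟨hF1, hF2, hF3, hF4⟩ := hFJ (s, t) hst
    obtain ⟨hk1, _⟩ := key (s, t) hst
    set R := pc p w (F (s, t)) with hR
    have hR0 : 0 ≤ R := pc_nonneg _ _ _
    refine ⟨F (s, t), hF1, ?_⟩
    have h1 := hF3 f' hf'S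
    -- Hölder
    have h2 : R ≤ cost p w' f' * (R * (1 + 2 * (lam * τ))) ^ (1 / q) := by
      have h3 : ∑ e, f' e * J (s, t) e
          = ∑ e ∈ S', (f' e / w' e) * (w' e * J (s, t) e) := by
        have h4 : ∑ e ∈ S', (f' e / w' e) * (w' e * J (s, t) e) = ∑ e ∈ S', f' e * J (s, t) e := by
          refine Finset.sum_congr rfl fun e he => ?_
          have hwe : 0 < w' e := by
            have hwe := hw e (hS'S he)
            simp only [hw']
            split_ifs
            · positivity
            · exact hwe
          field_simp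
        rw [h4]
        symm
        apply Finset.sum_subset (Finset.subset_univ _)
        intro e _ he
        rw [hf'.2 e he, zero_mul]
      have h4 := Real.inner_le_Lp_mul_Lq S' (fun e => f' e / w' e)
        (fun e => w' e * J (s, t) e) hpq
      rw [← h3, h1] at h4
      refine h4.trans ?_
      apply mul_le_mul
      · apply Real.rpow_le_rpow (Finset.sum_nonneg fun e _ => Real.rpow_nonneg (abs_nonneg _) _)
          _ (by positivity)
        exact Finset.sum_le_sum_of_subset_of_nonneg (Finset.subset_univ _)
          (fun e _ _ => Real.rpow_nonneg (abs_nonneg _) _)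
      · apply Real.rpow_le_rpow (Finset.sum_nonneg fun e _ => Real.rpow_nonneg (abs_nonneg _) _)
          _ (by positivity)
        have h5 : ∀ e ∈ S', |w' e * J (s, t) e| ^ q ≤ |F (s, t) e / w e| ^ p
            + sg (η e) * (if e ∈ E1 then |F (s, t) e / w e| ^ p else 0) := by
          intro e he
          have heS := hS'S he
          by_cases he1 : e ∈ E1
          · have h6 : η e = true := by
              rcases Finset.mem_union.mp he with h7 | h7
              · exact absurd h7 (hE1B e he1)
              · exact (Finset.mem_filter.mp h7).2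
            simp only [hw', if_pos he1, h6, sg, if_true, one_mul]
            rw [mul_assoc, abs_mul, Real.mul_rpow (abs_nonneg _) (abs_nonneg _), hF4 e heS,
              abs_of_pos h2q, ← Real.rpow_mul (by norm_num), one_div_mul_cancel hq0.ne',
              Real.rpow_one]
            linarith
          · simp only [hw', if_neg he1, mul_zero, add_zero]
            rw [hF4 e heS]
        calc ∑ e ∈ S', |w' e * J (s, t) e| ^ q
            ≤ ∑ e ∈ S', (|F (s, t) e / w e| ^ p
              + sg (η e) * (if e ∈ E1 then |F (s, t) e / w e| ^ p else 0)) :=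
              Finset.sum_le_sum h5
          _ ≤ ∑ e, (|F (s, t) e / w e| ^ p
              + sg (η e) * (if e ∈ E1 then |F (s, t) e / w e| ^ p else 0)) := by
              apply Finset.sum_le_sum_of_subset_of_nonneg (Finset.subset_univ _)
              intro e _ _
              have h6 : 0 ≤ |F (s, t) e / w e| ^ p := Real.rpow_nonneg (abs_nonneg _) _
              by_cases he1 : e ∈ E1
              · rw [if_pos he1]
                rcases sg_or (η e) with h7 | h7 <;> rw [h7] <;> linarith
              · rw [if_neg he1]; linarith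
          _ = R + ∑ e, sg (η e) * (if e ∈ E1 then |F (s, t) e / w e| ^ p else 0) := by
              rw [Finset.sum_add_distrib]; rfl
          _ ≤ R * (1 + 2 * (lam * τ)) := by
              have h6 := (abs_le.mp hk1).2
              linarith
      · exact Real.rpow_nonneg (Finset.sum_nonneg fun e _ => Real.rpow_nonneg (abs_nonneg _) _) _
      · exact cost_nonneg _ _ _
    rcases hR0.eq_or_lt with h0 | h0
    · have h3 : cost p w (F (s, t)) = 0 := by
        unfold cost
        rw [← hR, ← h0, Real.zero_rpow (by positivity)]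
      rw [h3, mul_zero]
      exact cost_nonneg _ _ _
    · have h3 : cost p w (F (s, t)) * R ^ (1 / q) = R := by
        unfold cost
        rw [← hR, ← Real.rpow_add h0]
        have h7 : 1 / p + 1 / q = 1 := by
          have := hpq.inv_add_inv_eq_one
          rw [one_div, one_div]; exact this
        rw [h7, Real.rpow_one]
      rw [Real.mul_rpow hR0 (by linarith)] at h2
      have h4 : 0 < R ^ (1 / q) := Real.rpow_pos_of_pos h0 _
      have h5 : cost p w (F (s, t)) ≤ cost p w' f' * (1 + 2 * (lam * τ)) ^ (1 / q) := by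
        have h6 : cost p w (F (s, t)) * R ^ (1 / q)
            ≤ (cost p w' f' * (1 + 2 * (lam * τ)) ^ (1 / q)) * R ^ (1 / q) := by
          rw [h3]; linarith
        exact le_of_mul_le_mul_right h6 h4
      have h6 : (1 + 2 * (lam * τ)) ^ (1 / q) ≤ 1 + 2 * (lam * τ) := by
        calc (1 + 2 * (lam * τ)) ^ (1 / q) ≤ (1 + 2 * (lam * τ)) ^ (1:ℝ) :=
              Real.rpow_le_rpow_of_exponent_le (by linarith)
                (by rw [div_le_one hq0]; linarith [hpq.symm.lt])
          _ = _ := Real.rpow_one _
      have h7 : cost p w (F (s, t)) ≤ cost p w' f' * (1 + 2 * (lam * τ)) :=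
        h5.trans (mul_le_mul_of_nonneg_left h6 (cost_nonneg _ _ _))
      rcases le_or_gt (1 - 2 * (lam * τ)) 0 with h8 | h8
      · calc (1 - 2 * (lam * τ)) * cost p w (F (s, t)) ≤ 0 :=
              mul_nonpos_of_nonpos_of_nonneg h8 (cost_nonneg _ _ _)
          _ ≤ _ := cost_nonneg _ _ _
      · calc (1 - 2 * (lam * τ)) * cost p w (F (s, t))
            ≤ (1 - 2 * (lam * τ)) * (cost p w' f' * (1 + 2 * (lam * τ))) :=
              mul_le_mul_of_nonneg_left h7 h8.le
          _ = cost p w' f' * (1 - (2 * (lam * τ)) ^ 2) := by ring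
          _ ≤ cost p w' f' * 1 := by
              apply mul_le_mul_of_nonneg_left _ (cost_nonneg _ _ _)
              linarith [sq_nonneg (2 * (lam * τ))]
          _ = _ := mul_one _

end Pool.Agent.Helper81.Flow
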