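import Mathlib
import Pool.Agent.Helper81.Flow.Bundle
import Pool.Agent.Helper81.Flow.Round

/-!
Iterating the rounds.
-/

namespace Pool.Agent.Helper81.Flow

open Finset

variable {V E : Type*} [Fintype V] [DecidableEq V] [Fintype E] [DecidableEq E] (a b : E → V)

omit [Fintype V] [DecidableEq E] in
theorem approx_refl (p : ℝ) (S : Finset E) (w : E → ℝ) : Approx a b p S w S w 1 1 :=
  ⟨fun _ _ f hf => ⟨f, hf, by rw [one_mul]⟩, fun _ _ f hf => ⟨f, hf, by rw [one_mul]⟩⟩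

omit [Fintype V] [DecidableEq E] in
theorem approx_trans {p : ℝ} {S S' S'' : Finset E} {w w' w'' : E → ℝ} {α β α' β' : ℝ}
    (h : Approx a b p S w S' w' α β) (h' : Approx a b p S' w' S'' w'' α' β') (hα : 0 ≤ α')
    (hβ : 0 ≤ β') : Approx a b p S w S'' w'' (α * α') (β * β') := by
  refine ⟨fun s t f hf => ?_, fun s t f'' hf'' => ?_⟩
  · obtain ⟨f', hf', h1⟩ := h.1 s t f hf
    obtain ⟨f'', hf'', h2⟩ := h'.1 s t f' hf'
    refine ⟨f'', hf'', ?_⟩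
    calc cost p w'' f'' ≤ α' * cost p w' f' := h2
      _ ≤ α' * (α * cost p w f) := mul_le_mul_of_nonneg_left h1 hα
      _ = α * α' * cost p w f := by ring
  · obtain ⟨f', hf', h1⟩ := h'.2 s t f'' hf''
    obtain ⟨f, hf, h2⟩ := h.2 s t f' hf'
    refine ⟨f, hf, ?_⟩
    calc β * β' * cost p w f = β' * (β * cost p w f) := by ring
      _ ≤ β' * cost p w' f' := mul_le_mul_of_nonneg_left h2 hβ
      _ ≤ _ := h1

/-- One round, with the bundle built in. -/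
theorem round_bundle {p q : ℝ} (hpq : p.HolderConjugate q) (hp2 : p ≤ 2) {k : ℕ} (hk : 1 ≤ k)
    (hcard : Fintype.card V < 2 ^ k) (S : Finset E) (w : E → ℝ) (hw : ∀ e ∈ S, 0 < w e)
    {t : ℕ} (ht : 1 ≤ t) {τ : ℝ} (hτ0 : 0 ≤ τ) (hτ : 2 * τ ≤ 1)
    (hτt : 2 * (k : ℝ) * (t : ℝ) ^ (-(1 / q)) ≤ τ) {lam : ℝ} (hlam : 0 < lam)
    (hJ : 2 * ((Fintype.card V : ℝ) * (Fintype.card V * (Fintype.card E + 1)))
      * Real.exp (-(lam ^ 2) / 2) < 1) :
    ∃ S' ⊆ S, ∃ w' : E → ℝ, (∀ e ∈ S', 0 < w' e) ∧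
      2 * S'.card ≤ t * (2 * Fintype.card V) + S.card ∧
      Approx a b p S w S' w' (1 + 3 * (lam * τ)) (1 - 2 * (lam * τ)) := by
  have hp1 : 1 < p := hpq.lt
  have hp0 : 0 < p := by linarith
  have hq0 : 0 < q := by linarith [hpq.symm.lt]
  have ht0 : (0:ℝ) < t := by exact_mod_cast (by omega : 0 < t)
  obtain ⟨B, hBS, hBcard, hB⟩ := bundle a b hp1.le hk hcard S w hw t
  obtain ⟨S', hS', w', hw', hcard', happ⟩ := round a b hpq hp2 hBS hw hτ0 hτ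
    (fun e he => by
      obtain ⟨g, hg1, hg2, hg3⟩ := hB e he
      have hwe := hw e (Finset.mem_sdiff.mp he).1
      refine ⟨fun e' => (t:ℝ)⁻¹ * g e', fun x => ?_, fun e' he' => ?_, ?_⟩
      · rw [net_smul, hg1]
        field_simp
      · show (t:ℝ)⁻¹ * g e' = 0
        rw [hg2 e' he', mul_zero]
      · have h1 : pc p w (fun e' => (t:ℝ)⁻¹ * g e') = ((t:ℝ)⁻¹) ^ p * ∑ e', |g e' / w e'| ^ p := by
          unfold pc
          rw [Finset.mul_sum]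
          refine Finset.sum_congr rfl fun e' _ => ?_
          rw [mul_div_assoc, abs_mul, Real.mul_rpow (abs_nonneg _) (abs_nonneg _),
            abs_of_pos (inv_pos.mpr ht0)]
        rw [h1]
        have h2 : ((t:ℝ)⁻¹) ^ p * (t * ((2 * k : ℝ) / w e) ^ p)
            = ((2 * (k : ℝ) * (t : ℝ) ^ (-(1 / q))) / w e) ^ p := by
          have h3 : (2 * (k : ℝ) * (t : ℝ) ^ (-(1 / q))) / w e
              = (t : ℝ) ^ (-(1 / q)) * ((2 * k : ℝ) / w e) := by ring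
          rw [h3, Real.mul_rpow (Real.rpow_nonneg ht0.le _) (by positivity), ← mul_assoc]
          congr 1
          rw [← Real.rpow_mul ht0.le, Real.inv_rpow ht0.le, ← Real.rpow_neg ht0.le]
          nth_rewrite 2 [← Real.rpow_one (t:ℝ)]
          rw [← Real.rpow_add ht0]
          congr 1
          have h4 : p * q = p + q := hpq.mul_eq_add
          field_simp
          linarith
        calc ((t:ℝ)⁻¹) ^ p * ∑ e', |g e' / w e'| ^ p
            ≤ ((t:ℝ)⁻¹) ^ p * (t * ((2 * k : ℝ) / w e) ^ p) :=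
              mul_le_mul_of_nonneg_left hg3 (Real.rpow_nonneg (inv_nonneg.mpr ht0.le) _)
          _ = ((2 * (k : ℝ) * (t : ℝ) ^ (-(1 / q))) / w e) ^ p := h2
          _ ≤ (τ / w e) ^ p := by
              apply Real.rpow_le_rpow (by positivity) _ hp0.le
              exact div_le_div_of_nonneg_right hτt hwe.le)
    hlam hJ
  exact ⟨S', hS', w', hw', hcard'.trans (Nat.add_le_add_right hBcard _), happ⟩

/-- `r` rounds. -/
theorem rounds {p q : ℝ} (hpq : p.HolderConjugate q) (hp2 : p ≤ 2) {k : ℕ} (hk : 1 ≤ k)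
    (hcard : Fintype.card V < 2 ^ k) (S : Finset E) (w : E → ℝ) (hw : ∀ e ∈ S, 0 < w e)
    {t : ℕ} (ht : 1 ≤ t) {τ : ℝ} (hτ0 : 0 ≤ τ) (hτ : 2 * τ ≤ 1)
    (hτt : 2 * (k : ℝ) * (t : ℝ) ^ (-(1 / q)) ≤ τ) {lam : ℝ} (hlam : 0 < lam)
    (hJ : 2 * ((Fintype.card V : ℝ) * (Fintype.card V * (Fintype.card E + 1)))
      * Real.exp (-(lam ^ 2) / 2) < 1) (hlt : 2 * (lam * τ) ≤ 1) (r : ℕ) :
    ∃ S' ⊆ S, ∃ w' : E → ℝ, (∀ e ∈ S', 0 < w' e) ∧
      2 ^ r * S'.card ≤ 2 ^ r * (t * (2 * Fintype.card V)) + S.card ∧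
      Approx a b p S w S' w' ((1 + 3 * (lam * τ)) ^ r) ((1 - 2 * (lam * τ)) ^ r) := by
  have hlt0 : 0 ≤ lam * τ := mul_nonneg hlam.le hτ0
  induction r with
  | zero =>
    refine ⟨S, Finset.Subset.refl _, w, hw, by simp, ?_⟩
    rw [pow_zero, pow_zero]
    exact approx_refl a b p S w
  | succ r ih =>
    obtain ⟨S₁, hS₁, w₁, hw₁, hc₁, ha₁⟩ := ih
    obtain ⟨S₂, hS₂, w₂, hw₂, hc₂, ha₂⟩ := round_bundle a b hpq hp2 hk hcard S₁ w₁ hw₁ ht hτ0 hτ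
      hτt hlam hJ
    refine ⟨S₂, hS₂.trans hS₁, w₂, hw₂, ?_, ?_⟩
    · have h1 : 2 ^ r * (2 * S₂.card) ≤ 2 ^ r * (t * (2 * Fintype.card V) + S₁.card) :=
        Nat.mul_le_mul_left _ hc₂
      calc 2 ^ (r + 1) * S₂.card = 2 ^ r * (2 * S₂.card) := by ring
        _ ≤ 2 ^ r * (t * (2 * Fintype.card V) + S₁.card) := h1
        _ = 2 ^ r * (t * (2 * Fintype.card V)) + 2 ^ r * S₁.card := by ring
        _ ≤ 2 ^ r * (t * (2 * Fintype.card V)) + (2 ^ r * (t * (2 * Fintype.card V)) + S.card) :=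
          Nat.add_le_add_left hc₁ _
        _ = _ := by ring
    · rw [pow_succ, pow_succ]
      exact approx_trans a b ha₁ ha₂ (by linarith) (by linarith)

/-- Enough rounds: at most `2 t |V|` edges survive. -/
theorem rounds_final {p q : ℝ} (hpq : p.HolderConjugate q) (hp2 : p ≤ 2) {k : ℕ} (hk : 1 ≤ k)
    (hcard : Fintype.card V < 2 ^ k) (S : Finset E) (w : E → ℝ) (hw : ∀ e ∈ S, 0 < w e)
    {t : ℕ} (ht : 1 ≤ t) {τ : ℝ} (hτ0 : 0 ≤ τ) (hτ : 2 * τ ≤ 1)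
    (hτt : 2 * (k : ℝ) * (t : ℝ) ^ (-(1 / q)) ≤ τ) {lam : ℝ} (hlam : 0 < lam)
    (hJ : 2 * ((Fintype.card V : ℝ) * (Fintype.card V * (Fintype.card E + 1)))
      * Real.exp (-(lam ^ 2) / 2) < 1) (hlt : 2 * (lam * τ) ≤ 1) (r : ℕ) (hr : S.card < 2 ^ r) :
    ∃ S' ⊆ S, ∃ w' : E → ℝ, (∀ e ∈ S', 0 < w' e) ∧ S'.card ≤ t * (2 * Fintype.card V) ∧
      Approx a b p S w S' w' ((1 + 3 * (lam * τ)) ^ r) ((1 - 2 * (lam * τ)) ^ r) := by
  obtain ⟨S', hS', w', hw', hc, ha⟩ := rounds a b hpq hp2 hk hcard S w hw ht hτ0 hτ hτt hlam hJ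
    hlt r
  refine ⟨S', hS', w', hw', ?_, ha⟩
  by_contra hcon
  push Not at hcon
  have h1 : 2 ^ r * (t * (2 * Fintype.card V) + 1) ≤ 2 ^ r * S'.card := Nat.mul_le_mul_left _ hcon
  have h2 : 2 ^ r * (t * (2 * Fintype.card V) + 1) = 2 ^ r * (t * (2 * Fintype.card V)) + 2 ^ r := by
    ring
  omega

end Pool.Agent.Helper81.Flow
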