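import Mathlib
import Pool.Agent.Helper81.Flow.Iterate

/-!
The choice of the parameters.
-/

namespace Pool.Agent.Helper81.Flow

open Finset

theorem approx_mono {V E : Type*} [DecidableEq V] [Fintype E] (a b : E → V) {p : ℝ}
    {S S' : Finset E} {w w' : E → ℝ} {α β α' β' : ℝ}
    (h : Approx a b p S w S' w' α β) (hα : α ≤ α') (hβ : β' ≤ β) :
    Approx a b p S w S' w' α' β' := by
  refine ⟨fun s t f hf => ?_, fun s t f' hf' => ?_⟩
  · obtain ⟨f', hf', h1⟩ := h.1 s t f hf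
    exact ⟨f', hf', h1.trans (mul_le_mul_of_nonneg_right hα (cost_nonneg _ _ _))⟩
  · obtain ⟨f, hf, h1⟩ := h.2 s t f' hf'
    exact ⟨f, hf, (mul_le_mul_of_nonneg_right hβ (cost_nonneg _ _ _)).trans h1⟩

theorem k_le {n : ℕ} (hn : 2 ≤ n) : ((Nat.log 2 n + 1 : ℕ) : ℝ) ≤ 3 * Real.log n := by
  have hn0 : (0:ℝ) < n := by exact_mod_cast (by omega : 0 < n)
  have h1 : (2:ℝ) ^ (Nat.log 2 n) ≤ n := by exact_mod_cast Nat.pow_log_le_self 2 (by omega)
  have h2 : (Nat.log 2 n : ℝ) * Real.log 2 ≤ Real.log n := by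
    rw [← Real.log_pow]
    exact Real.log_le_log (by positivity) h1
  have h3 : Real.log 2 ≤ Real.log n := Real.log_le_log (by norm_num) (by exact_mod_cast hn)
  have h4 := Real.log_two_gt_d9
  push_cast
  have h5 : ((Nat.log 2 n : ℝ) + 1) * Real.log 2 ≤ 2 * Real.log n := by linarith
  have h6 : ((Nat.log 2 n : ℝ) + 1) * (2 / 3) ≤ ((Nat.log 2 n : ℝ) + 1) * Real.log 2 :=
    mul_le_mul_of_nonneg_left (by linarith) (by positivity)
  linarith

theorem union_bound {n k : ℕ} (hk : 1 ≤ k) (hn : n < 2 ^ k) {s : ℝ} (hs : s ^ 2 = k) :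
    2 * ((n : ℝ) * (n * ((n : ℝ) * n + 1))) * Real.exp (-((3 * s) ^ 2) / 2) < 1 := by
  have h1 : (3 * s) ^ 2 = 9 * k := by rw [mul_pow, hs]; norm_num
  rw [h1]
  have h2 : -(9 * (k:ℝ)) / 2 = -((k:ℝ) * (9 / 2)) := by ring
  rw [h2, Real.exp_neg, Real.exp_nat_mul, ← div_eq_mul_inv]
  have h3 : (32:ℝ) ≤ Real.exp (9 / 2) := by
    have h4 : Real.exp 4 ≤ Real.exp (9 / 2) := Real.exp_le_exp.mpr (by norm_num)
    have h5 : Real.exp 4 = Real.exp 1 ^ 4 := by
      rw [← Real.exp_nat_mul]; norm_num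
    have h6 := Real.exp_one_gt_d9
    have h7 : (2.7:ℝ) ^ 4 ≤ Real.exp 1 ^ 4 := pow_le_pow_left₀ (by norm_num) (by linarith) 4
    norm_num at h7
    linarith
  have h4 : (32:ℝ) ^ k ≤ Real.exp (9 / 2) ^ k := pow_le_pow_left₀ (by norm_num) h3 k
  rw [div_lt_one (by positivity)]
  refine lt_of_lt_of_le ?_ h4
  have hN : (n:ℝ) + 1 ≤ 2 ^ k := by exact_mod_cast hn
  set N : ℝ := 2 ^ k with hNdef
  have hn0 : (0:ℝ) ≤ n := Nat.cast_nonneg n
  have hN2 : (2:ℝ) ≤ N := by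
    rw [hNdef]
    calc (2:ℝ) = 2 ^ 1 := by norm_num
      _ ≤ 2 ^ k := pow_le_pow_right₀ (by norm_num) hk
  have h32 : (32:ℝ) ^ k = N ^ 5 := by
    rw [hNdef, ← pow_mul, mul_comm k 5, pow_mul]; norm_num
  rw [h32]
  have h5 : (n:ℝ) * n + 1 ≤ N ^ 2 := by nlinarith
  have h6 : (n:ℝ) * n < N ^ 2 := by nlinarith
  calc 2 * ((n : ℝ) * (n * ((n : ℝ) * n + 1))) = 2 * ((n * n) * ((n : ℝ) * n + 1)) := by ring
    _ < 2 * (N ^ 2 * N ^ 2) := by
        have h7 : ((n:ℝ) * n) * ((n : ℝ) * n + 1) < N ^ 2 * N ^ 2 :=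
          mul_lt_mul h6 h5 (by positivity) (by positivity)
        linarith
    _ = 2 * N ^ 4 := by ring
    _ ≤ N * N ^ 4 := mul_le_mul_of_nonneg_right hN2 (by positivity)
    _ = N ^ 5 := by ring

theorem near_linear {p q : ℝ} (hpq : p.HolderConjugate q) (hp2 : p ≤ 2) {ε : ℝ} (hε : 0 < ε)
    (hε1 : ε ≤ 1) {n : ℕ} (hn : 2 ≤ n) (S : Finset (Fin n × Fin n)) (w : Fin n × Fin n → ℝ)
    (hw : ∀ e ∈ S, 0 < w e) :
    ∃ S' ⊆ S, ∃ w' : Fin n × Fin n → ℝ, (∀ e ∈ S', 0 < w' e) ∧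
      (S'.card : ℝ) ≤ 4 * (1200 / ε) ^ q * n * Real.log n ^ (5 * q / 2) ∧
      Approx Prod.fst Prod.snd p S w S' w' (1 + ε) (1 - ε) := by
  have hp1 : 1 < p := hpq.lt
  have hq1 : 1 < q := hpq.symm.lt
  have hq0 : 0 < q := by linarith
  set k := Nat.log 2 n + 1 with hk
  have hk1 : 1 ≤ k := by omega
  have hnk : n < 2 ^ k := Nat.lt_pow_succ_log_self (by norm_num) n
  have hkr : (1:ℝ) ≤ k := by exact_mod_cast hk1
  have hk0 : (0:ℝ) < k := by linarith
  set s : ℝ := Real.sqrt k with hs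
  have hs2 : s ^ 2 = k := Real.sq_sqrt hk0.le
  have hs1 : 1 ≤ s := by rw [hs]; exact Real.one_le_sqrt.mpr hkr
  have hs0 : 0 < s := by linarith
  set x : ℝ := 72 * s ^ 5 / ε with hx
  have hs5 : 1 ≤ s ^ 5 := one_le_pow₀ hs1
  have hx1 : 1 ≤ x := by
    rw [hx, le_div_iff₀ hε]
    linarith
  have hx0 : 0 < x := by linarith
  set t := ⌈x ^ q⌉₊ with ht
  have hxq1 : 1 ≤ x ^ q := Real.one_le_rpow hx1 hq0.le
  have hxt : x ^ q ≤ t := Nat.le_ceil _
  have ht1 : 1 ≤ t := by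
    have : (1:ℝ) ≤ t := hxq1.trans hxt
    exact_mod_cast this
  have ht0 : (0:ℝ) < t := by exact_mod_cast (by omega : 0 < t)
  set τ : ℝ := ε / (36 * s ^ 3) with hτ
  have hs3 : 1 ≤ s ^ 3 := one_le_pow₀ hs1
  have hτ0 : 0 ≤ τ := by positivity
  have hτ1 : 2 * τ ≤ 1 := by
    have h1 : τ ≤ 1 / 36 := by
      rw [hτ]
      apply div_le_div₀ (by norm_num) hε1 (by norm_num)
      linarith
    linarith
  have hτt : 2 * (k : ℝ) * (t : ℝ) ^ (-(1 / q)) ≤ τ := by
    have h1 : x ≤ (t:ℝ) ^ (1 / q) := by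
      have h2 := Real.rpow_le_rpow (by positivity) hxt (show 0 ≤ 1 / q by positivity)
      rwa [← Real.rpow_mul hx0.le, mul_one_div_cancel hq0.ne', Real.rpow_one] at h2
    have h2 : (t : ℝ) ^ (-(1 / q)) ≤ 1 / x := by
      rw [Real.rpow_neg ht0.le, one_div x]
      exact inv_anti₀ hx0 h1
    calc 2 * (k : ℝ) * (t : ℝ) ^ (-(1 / q)) ≤ 2 * (k:ℝ) * (1 / x) :=
          mul_le_mul_of_nonneg_left h2 (by positivity)
      _ = τ := by
          rw [hx, hτ, ← hs2]
          field_simp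
          norm_num
  have hlt : (3 * s) * τ = ε / (12 * k) := by
    rw [hτ, ← hs2]
    field_simp
    norm_num
  have hr : S.card < 2 ^ (2 * k) := by
    have h1 : S.card ≤ n * n := by
      calc S.card ≤ Fintype.card (Fin n × Fin n) := Finset.card_le_univ S
        _ = n * n := by simp
    have h2 : 2 ^ (2 * k) = 2 ^ k * 2 ^ k := by rw [two_mul, pow_add]
    rw [h2]
    exact lt_of_le_of_lt h1 (Nat.mul_lt_mul'' hnk hnk)
  have hltb : ε / (12 * k) ≤ 1 / 12 := by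
    apply div_le_div₀ (by norm_num) hε1 (by norm_num)
    linarith
  have hlt0 : 0 ≤ ε / (12 * (k:ℝ)) := by positivity
  obtain ⟨S', hS', w', hw', hc, ha⟩ := rounds_final (Prod.fst : Fin n × Fin n → Fin n) Prod.snd
    hpq hp2 hk1 (by rw [Fintype.card_fin]; exact hnk) S w hw ht1 hτ0 hτ1 hτt
    (lam := 3 * s) (by positivity)
    (by
      rw [Fintype.card_prod, Fintype.card_fin]
      push_cast
      exact union_bound hk1 hnk hs2)
    (by rw [hlt]; linarith) (2 * k) hr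
  refine ⟨S', hS', w', hw', ?_, approx_mono _ _ ha ?_ ?_⟩
  · -- the number of edges
    have hL0 : 0 < Real.log n := Real.log_pos (by exact_mod_cast (by omega : 1 < n))
    have h1 : (t:ℝ) ≤ 2 * x ^ q := by
      have h2 := (Nat.ceil_lt_add_one (show 0 ≤ x ^ q by positivity)).le
      rw [← ht] at h2
      linarith
    have h2 : (S'.card : ℝ) ≤ t * (2 * n) := by
      have h3 : S'.card ≤ t * (2 * n) := by rw [Fintype.card_fin] at hc; exact hc
      exact_mod_cast h3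
    have h3 : s ^ 5 ≤ 16 * Real.log n ^ ((5:ℝ) / 2) := by
      have h4 : s ^ 5 = (k:ℝ) ^ ((5:ℝ) / 2) := by
        rw [hs, Real.sqrt_eq_rpow, ← Real.rpow_natCast, ← Real.rpow_mul hk0.le]
        norm_num
      rw [h4]
      calc (k:ℝ) ^ ((5:ℝ) / 2) ≤ (3 * Real.log n) ^ ((5:ℝ) / 2) :=
            Real.rpow_le_rpow hk0.le (k_le hn) (by norm_num)
        _ = 3 ^ ((5:ℝ) / 2) * Real.log n ^ ((5:ℝ) / 2) := Real.mul_rpow (by norm_num) hL0.le
        _ ≤ 16 * Real.log n ^ ((5:ℝ) / 2) := by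
            apply mul_le_mul_of_nonneg_right _ (by positivity)
            have h5 : ((3:ℝ) ^ ((5:ℝ) / 2)) ^ 2 = 243 := by
              rw [← Real.rpow_natCast, ← Real.rpow_mul (by norm_num)]
              norm_num
            have h6 : (0:ℝ) ≤ (3:ℝ) ^ ((5:ℝ) / 2) := by positivity
            nlinarith
    have h4 : x ≤ (1200 / ε) * Real.log n ^ ((5:ℝ) / 2) := by
      rw [hx, div_mul_eq_mul_div]
      apply div_le_div_of_nonneg_right _ hε.le
      have : 0 ≤ Real.log n ^ ((5:ℝ) / 2) := by positivity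
      linarith
    have h5 : x ^ q ≤ (1200 / ε) ^ q * Real.log n ^ (5 * q / 2) := by
      calc x ^ q ≤ ((1200 / ε) * Real.log n ^ ((5:ℝ) / 2)) ^ q :=
            Real.rpow_le_rpow hx0.le h4 hq0.le
        _ = (1200 / ε) ^ q * (Real.log n ^ ((5:ℝ) / 2)) ^ q :=
            Real.mul_rpow (by positivity) (by positivity)
        _ = _ := by
            rw [← Real.rpow_mul hL0.le]
            congr 2
            ring
    have hn0 : (0:ℝ) ≤ n := Nat.cast_nonneg n
    calc (S'.card : ℝ) ≤ t * (2 * n) := h2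
      _ ≤ (2 * x ^ q) * (2 * n) := mul_le_mul_of_nonneg_right h1 (by positivity)
      _ = 4 * n * x ^ q := by ring
      _ ≤ 4 * n * ((1200 / ε) ^ q * Real.log n ^ (5 * q / 2)) :=
          mul_le_mul_of_nonneg_left h5 (by positivity)
      _ = _ := by ring
  · -- the upper factor
    rw [hlt]
    have h1 : (1 + 3 * (ε / (12 * (k:ℝ)))) ^ (2 * k) ≤ Real.exp (ε / 2) := by
      have h2 : 1 + 3 * (ε / (12 * (k:ℝ))) ≤ Real.exp (3 * (ε / (12 * (k:ℝ)))) := by
        have := Real.add_one_le_exp (3 * (ε / (12 * (k:ℝ))))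
        linarith
      calc (1 + 3 * (ε / (12 * (k:ℝ)))) ^ (2 * k)
          ≤ (Real.exp (3 * (ε / (12 * (k:ℝ))))) ^ (2 * k) :=
            pow_le_pow_left₀ (by linarith) h2 _
        _ = Real.exp (ε / 2) := by
            rw [← Real.exp_nat_mul]
            congr 1
            push_cast
            field_simp
            norm_num
    refine h1.trans ?_
    have h2 := Real.abs_exp_sub_one_sub_id_le (x := ε / 2) (by
      rw [abs_of_pos (by positivity)]; linarith)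
    have h3 := (abs_le.mp h2).2
    nlinarith
  · -- the lower factor
    rw [hlt]
    have h1 := one_add_mul_le_pow (a := -(2 * (ε / (12 * (k:ℝ))))) (by linarith) (2 * k)
    have h2 : 1 + ((2 * k : ℕ) : ℝ) * -(2 * (ε / (12 * (k:ℝ)))) = 1 - ε / 3 := by
      push_cast
      field_simp
      ring
    rw [h2] at h1
    have h3 : (1 + -(2 * (ε / (12 * (k:ℝ))))) = (1 - 2 * (ε / (12 * (k:ℝ)))) := by ring
    rw [h3] at h1
    linarith

end Pool.Agent.Helper81.Flow
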